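import Pool.Agent.H282R3.RW.Defs

/-!
# A superharmonic function on `ℤ ^ d`, `d ≥ 3`, which tends to zero at infinity
-/

namespace Pool.Agent.H282R3.RW

open MeasureTheory Filter Topology Finset

noncomputable section

/-- the inverse fourth root -/
def q4 (t : ℝ) : ℝ := t ^ (-(1 / 4) : ℝ)

theorem q4_pos {t : ℝ} (ht : 0 < t) : 0 < q4 t := Real.rpow_pos_of_pos ht _

theorem q4_pow {t : ℝ} (ht : 0 < t) : q4 t ^ 4 = t⁻¹ := by
  unfold q4
  rw [← Real.rpow_natCast, ← Real.rpow_mul ht.le]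
  norm_num
  rw [Real.rpow_neg_one]

theorem q4_mul {s t : ℝ} (hs : 0 < s) (ht : 0 < t) : q4 (s * t) = q4 s * q4 t := by
  unfold q4
  exact Real.mul_rpow hs.le ht.le

theorem q4_le {s t : ℝ} (hs : 0 < s) (hst : s ≤ t) : q4 t ≤ q4 s := by
  unfold q4
  exact Real.rpow_le_rpow_of_nonpos hs hst (by norm_num)

theorem poly_ineq {u : ℝ} (h1 : -(1 / 4) ≤ u) (h2 : u ≤ 1 / 4) :
    1 ≤ (1 + u) * (1 - u / 4 + 3 / 16 * u ^ 2 - 1 / 8 * u ^ 3) ^ 4 := by
  have habs : |u| ≤ 1 / 4 := abs_le.2 ⟨h1, h2⟩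
  have key : (1 + u) * (1 - u / 4 + 3 / 16 * u ^ 2 - 1 / 8 * u ^ 3) ^ 4 - 1 =
      u ^ 2 * (1 / 8 - 101 / 256 * u ^ 2 + 61 / 256 * u ^ 3 - 431 / 2048 * u ^ 4
        + 647 / 4096 * u ^ 5 - 4479 / 65536 * u ^ 6 + 2329 / 65536 * u ^ 7 - 15 / 1024 * u ^ 8
        + 31 / 8192 * u ^ 9 - 5 / 4096 * u ^ 10 + 1 / 4096 * u ^ 11) := by
    ring
  have hb : ∀ k : ℕ, |u ^ k| ≤ (1 / 4) ^ k := fun k => by
    rw [abs_pow]
    exact pow_le_pow_left₀ (abs_nonneg u) habs k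
  have b2 := abs_le.1 (hb 2)
  have b3 := abs_le.1 (hb 3)
  have b4 := abs_le.1 (hb 4)
  have b5 := abs_le.1 (hb 5)
  have b6 := abs_le.1 (hb 6)
  have b7 := abs_le.1 (hb 7)
  have b8 := abs_le.1 (hb 8)
  have b9 := abs_le.1 (hb 9)
  have b10 := abs_le.1 (hb 10)
  have b11 := abs_le.1 (hb 11)
  norm_num at b2 b3 b4 b5 b6 b7 b8 b9 b10 b11
  have hQ : 0 ≤ (1 / 8 - 101 / 256 * u ^ 2 + 61 / 256 * u ^ 3 - 431 / 2048 * u ^ 4
        + 647 / 4096 * u ^ 5 - 4479 / 65536 * u ^ 6 + 2329 / 65536 * u ^ 7 - 15 / 1024 * u ^ 8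
        + 31 / 8192 * u ^ 9 - 5 / 4096 * u ^ 10 + 1 / 4096 * u ^ 11) := by
    linarith [b2.2, b3.1, b4.2, b5.1, b6.2, b7.1, b8.2, b9.1, b10.2, b11.1]
  have : 0 ≤ u ^ 2 * (1 / 8 - 101 / 256 * u ^ 2 + 61 / 256 * u ^ 3 - 431 / 2048 * u ^ 4
        + 647 / 4096 * u ^ 5 - 4479 / 65536 * u ^ 6 + 2329 / 65536 * u ^ 7 - 15 / 1024 * u ^ 8
        + 31 / 8192 * u ^ 9 - 5 / 4096 * u ^ 10 + 1 / 4096 * u ^ 11) :=
    mul_nonneg (sq_nonneg u) hQ
  linarith

theorem q4_one_add {u : ℝ} (h1 : -(1 / 4) ≤ u) (h2 : u ≤ 1 / 4) :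
    q4 (1 + u) ≤ 1 - u / 4 + 3 / 16 * u ^ 2 - 1 / 8 * u ^ 3 := by
  have hpos : (0 : ℝ) < 1 + u := by linarith
  have hP : 0 ≤ 1 - u / 4 + 3 / 16 * u ^ 2 - 1 / 8 * u ^ 3 := by
    nlinarith [sq_nonneg u, mul_nonneg (sq_nonneg u) (sub_nonneg.2 h2)]
  have h4 : q4 (1 + u) ^ 4 ≤ (1 - u / 4 + 3 / 16 * u ^ 2 - 1 / 8 * u ^ 3) ^ 4 := by
    rw [q4_pow hpos, inv_le_iff_one_le_mul₀ hpos]
    have := poly_ineq h1 h2
    linarith
  exact le_of_pow_le_pow_left₀ (by norm_num) hP h4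

theorem q4_pair {u : ℝ} (h1 : -(1 / 4) ≤ u) (h2 : u ≤ 1 / 4) :
    q4 (1 + u) + q4 (1 - u) ≤ 2 + 3 / 8 * u ^ 2 := by
  have a := q4_one_add h1 h2
  have b := q4_one_add (u := -u) (by linarith) (by linarith)
  have e : (1 : ℝ) + -u = 1 - u := by ring
  rw [e] at b
  nlinarith

theorem q4_one_sub {t : ℝ} (h1 : 0 ≤ t) (h2 : t < 1) : 1 + t / 4 ≤ q4 (1 - t) := by
  have hpos : (0 : ℝ) < 1 - t := by linarith
  have h4 : (1 + t / 4) ^ 4 ≤ q4 (1 - t) ^ 4 := by
    rw [q4_pow hpos, le_inv_comm₀ (by positivity) hpos, ← one_div, le_div_iff₀ (by positivity)]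
    have : (1 - t) * (1 + t / 4) ^ 4 = 1 - t ^ 2 * (5 / 8 + 5 / 16 * t + 15 / 256 * t ^ 2
        + 1 / 256 * t ^ 3) := by ring
    rw [this]
    have : 0 ≤ t ^ 2 * (5 / 8 + 5 / 16 * t + 15 / 256 * t ^ 2 + 1 / 256 * t ^ 3) := by positivity
    linarith
  exact le_of_pow_le_pow_left₀ (by norm_num) (q4_pos hpos).le h4

variable {d : ℕ}

/-- the square of the Euclidean norm -/
def nsq (x : V d) : ℝ := ∑ i, (x i : ℝ) ^ 2

theorem nsq_nonneg (x : V d) : 0 ≤ nsq x := sum_nonneg fun _ _ => sq_nonneg _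

theorem sq_le_nsq (x : V d) (i : Fin d) : (x i : ℝ) ^ 2 ≤ nsq x :=
  single_le_sum (f := fun i => (x i : ℝ) ^ 2) (fun _ _ => sq_nonneg _) (mem_univ i)

theorem nsq_add_vec (x : V d) (i : Fin d) (b : Bool) :
    nsq (x + vec (i, b)) = nsq x + 1 + (if b then 2 else -2) * (x i : ℝ) := by
  unfold nsq
  have h : ∀ j, ((x + vec (i, b)) j : ℝ) ^ 2 = (x j : ℝ) ^ 2 +
      (if j = i then (1 + (if b then 2 else -2) * (x i : ℝ)) else 0) := by
    intro j
    by_cases hj : j = i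
    · subst hj
      cases b <;> simp [vec] <;> ring
    · simp [vec, hj]
  rw [sum_congr rfl fun j _ => h j, sum_add_distrib, sum_ite_eq' univ i]
  simp
  ring

/-- the barrier -/
def bar (x : V d) : ℝ := q4 (nsq x + 15)

theorem bar_pos (x : V d) : 0 < bar x := q4_pos (by have := nsq_nonneg x; linarith)

theorem sum_dir (f : Dir d → ℝ) : ∑ e, f e = ∑ i, (f (i, true) + f (i, false)) := by
  rw [Fintype.sum_prod_type]
  refine sum_congr rfl fun i _ => ?_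
  simp

theorem bar_super (hd : 3 ≤ d) (x : V d) :
    ∑ e : Dir d, bar (x + vec e) ≤ 2 * d * bar x := by
  set R : ℝ := nsq x + 16 with hR
  have hn := nsq_nonneg x
  have hRpos : 0 < R := by linarith
  have hpair : ∀ i, bar (x + vec (i, true)) + bar (x + vec (i, false)) ≤
      q4 R * (2 + 3 / 8 * (2 * (x i : ℝ) / R) ^ 2) := by
    intro i
    set u : ℝ := 2 * (x i : ℝ) / R with hu
    have hxi := sq_le_nsq x i
    have hu1 : u ≤ 1 / 4 := by
      rw [hu, div_le_iff₀ hRpos]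
      nlinarith [sq_nonneg ((x i : ℝ) - 4)]
    have hu2 : -(1 / 4) ≤ u := by
      rw [hu, le_div_iff₀ hRpos]
      nlinarith [sq_nonneg ((x i : ℝ) + 4)]
    have hRu : R * u = 2 * (x i : ℝ) := by
      rw [hu]; field_simp
    have e1 : nsq (x + vec (i, true)) + 15 = R * (1 + u) := by
      rw [nsq_add_vec]; simp only [if_true]; rw [mul_add, hRu, hR]; ring
    have e2 : nsq (x + vec (i, false)) + 15 = R * (1 - u) := by
      rw [nsq_add_vec]
      simp only [Bool.false_eq_true, if_false]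
      rw [mul_sub, hRu, hR]; ring
    unfold bar
    rw [e1, e2, q4_mul hRpos (by linarith), q4_mul hRpos (by linarith), ← mul_add]
    exact mul_le_mul_of_nonneg_left (q4_pair hu2 hu1) (q4_pos hRpos).le
  have hsum : ∑ i, (2 * (x i : ℝ) / R) ^ 2 = 4 * nsq x / R ^ 2 := by
    unfold nsq
    rw [mul_sum, sum_div]
    refine sum_congr rfl fun i _ => ?_
    field_simp
    ring
  have hbar : bar x ≥ q4 R * (1 + 1 / R / 4) := by
    have e : nsq x + 15 = R * (1 - 1 / R) := by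
      rw [mul_sub, mul_one_div_cancel hRpos.ne', hR]; ring
    have ht : 1 / R < 1 := by
      rw [div_lt_one hRpos]; linarith
    unfold bar
    rw [e, q4_mul hRpos (by linarith)]
    exact mul_le_mul_of_nonneg_left (q4_one_sub (by positivity) ht) (q4_pos hRpos).le
  have hd' : (3 : ℝ) ≤ d := by exact_mod_cast hd
  have hq := q4_pos hRpos
  calc ∑ e : Dir d, bar (x + vec e)
      = ∑ i, (bar (x + vec (i, true)) + bar (x + vec (i, false))) := sum_dir _
    _ ≤ ∑ i : Fin d, q4 R * (2 + 3 / 8 * (2 * (x i : ℝ) / R) ^ 2) :=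
        sum_le_sum fun i _ => hpair i
    _ = q4 R * (2 * d + 3 / 8 * (4 * nsq x / R ^ 2)) := by
        rw [← mul_sum, sum_add_distrib, ← mul_sum, hsum, sum_const, card_univ, Fintype.card_fin,
          nsmul_eq_mul]
        ring
    _ ≤ q4 R * (2 * d * (1 + 1 / R / 4)) := by
        refine mul_le_mul_of_nonneg_left ?_ hq.le
        have h1 : 4 * nsq x / R ^ 2 ≤ 4 / R := by
          rw [div_le_div_iff₀ (by positivity) hRpos]
          nlinarith
        have h2 : 2 * (d : ℝ) * (1 + 1 / R / 4) = 2 * d + d / 2 * (1 / R) := by ring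
        have h3 : 3 / 8 * (4 / R) = 3 / 2 * (1 / R) := by ring
        have h4 : 3 / 2 * (1 / R) ≤ d / 2 * (1 / R) :=
          mul_le_mul_of_nonneg_right (by linarith) (by positivity)
        rw [h2]
        linarith
    _ = 2 * d * (q4 R * (1 + 1 / R / 4)) := by ring
    _ ≤ 2 * d * bar x := by
        refine mul_le_mul_of_nonneg_left hbar (by positivity)

theorem finite_nsq_le (C : ℝ) : {x : V d | nsq x ≤ C}.Finite := by
  obtain ⟨N, hN⟩ := exists_nat_ge C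
  have : {x : V d | nsq x ≤ C} ⊆ Set.pi Set.univ (fun _ : Fin d => Set.Icc (-(N : ℤ)) N) := by
    intro x hx i _
    have h1 : (x i : ℝ) ^ 2 ≤ N := (sq_le_nsq x i).trans (le_trans hx hN)
    have h2 : (x i) ^ 2 ≤ (N : ℤ) := by exact_mod_cast h1
    constructor <;> nlinarith [sq_nonneg (x i)]
  exact (Set.Finite.pi fun _ => Set.finite_Icc _ _).subset this

theorem tendsto_bar : Tendsto (bar : V d → ℝ) cofinite (𝓝 0) := by
  have h1 : Tendsto (fun x : V d => nsq x + 15) cofinite atTop := by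
    refine tendsto_atTop_add_const_right _ _ ?_
    rw [tendsto_atTop]
    intro b
    rw [eventually_cofinite]
    refine (finite_nsq_le b).subset ?_
    intro x hx
    simp only [Set.mem_ofPred_eq, not_le] at hx ⊢
    exact hx.le
  have h2 : Tendsto q4 atTop (𝓝 0) := by
    unfold q4
    have := tendsto_rpow_neg_atTop (y := 1 / 4) (by norm_num)
    exact this
  exact h2.comp h1

end

end Pool.Agent.H282R3.RW
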