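import Pool.Agent.H282R3.RW.Flux

/-!
# Sums of the increments of the hitting probability over a column
-/

namespace Pool.Agent.H282R3.RW

open MeasureTheory Filter Topology Finset

noncomputable section

variable {d : ℕ}

/-- the decrement of `hit` in the direction `e_i` -/
def dec (i : Fin d) (z : V d) : ℝ := hit z - hit (z + vec (i, true))

theorem dec_nonneg (hd : 3 ≤ d) {i : Fin d} {z : V d} (hz : 0 ≤ z i) : 0 ≤ dec i z :=
  sub_nonneg.2 (hit_mono hd hz)

theorem update_add_vec {v : Fin d} (y : V d) (t : ℤ) {e : Dir d} (he : e.1 ≠ v) :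
    Function.update (y + vec e) v t = Function.update y v t + vec e := by
  ext k
  by_cases hk : k = v
  · subst hk; simp [vec, Ne.symm he]
  · simp [hk]

theorem update_add_vec_self {v : Fin d} (y : V d) (t : ℤ) (b : Bool) :
    Function.update (y + vec (v, b)) v t = Function.update y v t := by
  ext k
  by_cases hk : k = v
  · subst hk; simp
  · simp [hk, vec]

theorem update_shift {v : Fin d} (y : V d) (t : ℤ) :
    Function.update y v t + vec (v, true) = Function.update y v (t + 1) := by
  ext k
  by_cases hk : k = v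
  · subst hk; simp [vec]
  · simp [hk, vec]

theorem update_shift' {v : Fin d} (y : V d) (t : ℤ) :
    Function.update y v t + vec (v, false) = Function.update y v (t - 1) := by
  ext k
  by_cases hk : k = v
  · subst hk; simp [vec]; ring
  · simp [hk, vec]

theorem sum_dec_le (hd : 3 ≤ d) {i v : Fin d} (hiv : i ≠ v) {c : ℤ} (hc : 0 ≤ c)
    (Y : Finset (V d)) (hY : ∀ y ∈ Y, y i = c ∧ y v = 0) (s : Finset ℤ) :
    ∑ y ∈ Y, ∑ t ∈ s, dec i (Function.update y v t) ≤ flux d := by
  classical
  rw [← sum_product']
  have hinj : Set.InjOn (fun p : V d × ℤ => Function.update p.1 v p.2)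
      ((Y ×ˢ s : Finset (V d × ℤ)) : Set (V d × ℤ)) := by
    rintro ⟨a, t⟩ ha ⟨b, t'⟩ hb hab
    simp only [coe_product, Set.mem_prod, mem_coe] at ha hb
    have h1 := congrFun hab v
    simp only [Function.update_self] at h1
    subst h1
    have h2 : a = b := by
      ext k
      by_cases hk : k = v
      · subst hk; rw [(hY a ha.1).2, (hY b hb.1).2]
      · have h3 := congrFun hab k
        simpa [hk] using h3
    rw [h2]
  have := sum_flux_le hd hc ((Y ×ˢ s).image (fun p : V d × ℤ => Function.update p.1 v p.2)) (i := i)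
    (by
      intro z hz
      rw [mem_image] at hz
      obtain ⟨⟨y, t⟩, hp, rfl⟩ := hz
      rw [mem_product] at hp
      simp only [Function.update_of_ne hiv]
      exact (hY y hp.1).1)
  rw [sum_image hinj] at this
  exact this

theorem sum_dec_le_one (hd : 3 ≤ d) {i v : Fin d} (hiv : i ≠ v) {y : V d} (hy : 0 ≤ y i)
    (s : Finset ℤ) : ∑ t ∈ s, dec i (Function.update y v t) ≤ flux d := by
  have := sum_dec_le hd hiv hy {Function.update y v 0} (by
    intro z hz
    rw [mem_singleton] at hz
    subst hz
    simp [hiv]) s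
  simpa using this

theorem summable_dec (hd : 3 ≤ d) {i v : Fin d} (hiv : i ≠ v) {y : V d} (hy : 0 ≤ y i) :
    Summable fun t : ℤ => dec i (Function.update y v t) :=
  summable_of_sum_le (fun t => dec_nonneg hd (by simpa [hiv] using hy))
    (sum_dec_le_one hd hiv hy)

/-- sum over a column -/
def colF (i v : Fin d) (y : V d) : ℝ := ∑' t : ℤ, dec i (Function.update y v t)

theorem colF_nonneg (hd : 3 ≤ d) {i v : Fin d} (hiv : i ≠ v) {y : V d} (hy : 0 ≤ y i) :
    0 ≤ colF i v y :=
  tsum_nonneg fun t => dec_nonneg hd (by simpa [hiv] using hy)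

theorem colF_le (hd : 3 ≤ d) {i v : Fin d} (hiv : i ≠ v) {y : V d} (hy : 0 ≤ y i) :
    colF i v y ≤ flux d :=
  (summable_dec hd hiv hy).tsum_le_of_sum_le (sum_dec_le_one hd hiv hy)

theorem sum_colF_le (hd : 3 ≤ d) {i v : Fin d} (hiv : i ≠ v) {c : ℤ} (hc : 0 ≤ c)
    (Y : Finset (V d)) (hY : ∀ y ∈ Y, y i = c ∧ y v = 0) :
    ∑ y ∈ Y, colF i v y ≤ flux d := by
  unfold colF
  have hs : ∀ y ∈ Y, Summable fun t : ℤ => dec i (Function.update y v t) := fun y hy =>
    summable_dec hd hiv (by rw [(hY y hy).1]; exact hc)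
  rw [← Summable.tsum_finsetSum hs]
  refine (summable_sum hs).tsum_le_of_sum_le fun s => ?_
  rw [sum_comm]
  exact sum_dec_le hd hiv hc Y hY s

theorem shift_sum {f : ℤ → ℝ} (hf : Summable f) (a : ℤ) :
    (Summable fun t : ℤ => f (t + a)) ∧ ∑' t : ℤ, f (t + a) = ∑' t : ℤ, f t :=
  ⟨(Equiv.addRight a).summable_iff.2 hf, (Equiv.addRight a).tsum_eq f⟩

theorem colF_harm (hd : 3 ≤ d) {i v : Fin d} (hiv : i ≠ v) {y : V d} (hy : 1 ≤ y i) :
    ∑ e : Dir d, colF i v (y + vec e) = 2 * d * colF i v y := by
  have hd0 : 0 < d := by omega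
  -- pointwise harmonicity
  have hpt : ∀ t : ℤ, ∑ e : Dir d, dec i (Function.update y v t + vec e) =
      2 * d * dec i (Function.update y v t) := by
    intro t
    set z := Function.update y v t with hz
    have hzi : z i = y i := by simp [hz, hiv]
    have h1 : lap (dec i) z = lap hit z - lap hit (z + vec (i, true)) := by
      have : lap (dec i) z = lap hit z - lap (fun w => hit (w + vec (i, true))) z :=
        lap_sub _ _ _
      rw [this]
      congr 1
      unfold lap
      congr 1
      refine sum_congr rfl fun e _ => ?_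
      rw [add_right_comm]
    rw [lap_hit_ne hd0 (i := i) (by omega), lap_hit_ne hd0 (i := i) (by
      simp [vec]; omega), sub_zero] at h1
    unfold lap at h1
    linarith
  have hsum : ∀ e : Dir d, Summable (fun t : ℤ => dec i (Function.update y v t + vec e)) ∧
      ∑' t : ℤ, dec i (Function.update y v t + vec e) = colF i v (y + vec e) := by
    rintro ⟨j, b⟩
    by_cases hj : j = v
    · subst hj
      have hs := summable_dec hd hiv (y := y) (v := j) (by omega)
      have hcol : colF i j (y + vec (j, b)) = colF i j y := by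
        unfold colF
        simp_rw [update_add_vec_self]
      rw [hcol]
      cases b
      · have he : (fun t : ℤ => dec i (Function.update y j t + vec (j, false))) =
            fun t : ℤ => dec i (Function.update y j (t + -1)) := by
          funext t
          rw [update_shift', sub_eq_add_neg]
        rw [he]
        exact shift_sum hs (-1)
      · have he : (fun t : ℤ => dec i (Function.update y j t + vec (j, true))) =
            fun t : ℤ => dec i (Function.update y j (t + 1)) := by
          funext t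
          rw [update_shift]
        rw [he]
        exact shift_sum hs 1
    · have hs := summable_dec hd hiv (y := y + vec (j, b)) (v := v) (by
        by_cases hji : j = i
        · subst hji
          cases b <;> simp [vec] <;> omega
        · simp [vec, Ne.symm hji]; omega)
      have he : ∀ t : ℤ, Function.update (y + vec (j, b)) v t =
          Function.update y v t + vec (j, b) := fun t => update_add_vec y t hj
      refine ⟨?_, ?_⟩
      · simpa only [he] using hs
      · unfold colF
        simp_rw [he]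
  calc ∑ e : Dir d, colF i v (y + vec e)
      = ∑ e : Dir d, ∑' t : ℤ, dec i (Function.update y v t + vec e) :=
        sum_congr rfl fun e _ => (hsum e).2.symm
    _ = ∑' t : ℤ, ∑ e : Dir d, dec i (Function.update y v t + vec e) :=
        (Summable.tsum_finsetSum fun e _ => (hsum e).1).symm
    _ = ∑' t : ℤ, 2 * d * dec i (Function.update y v t) := tsum_congr hpt
    _ = 2 * d * colF i v y := tsum_mul_left

theorem dec_refl {i l : Fin d} (hil : i ≠ l) (z : V d) : dec i (refl l 0 z) = dec i z := by
  unfold dec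
  have h : refl l 0 (z + vec (i, true)) = refl l 0 z + vec (i, true) := by
    rw [refl_add_vec]; simp [flipDir, hil]
  rw [← h, hit_refl, hit_refl]

theorem update_refl {l v : Fin d} (hlv : l ≠ v) (y : V d) (c t : ℤ) :
    Function.update (refl l c y) v t = refl l c (Function.update y v t) := by
  unfold refl
  ext k
  by_cases hk : k = v
  · subst hk; simp [Ne.symm hlv]
  · by_cases hl : k = l
    · subst hl; simp [hk]
    · simp [hk, hl]

theorem colF_refl {i l v : Fin d} (hil : i ≠ l) (hlv : l ≠ v) (y : V d) :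
    colF i v (refl l 0 y) = colF i v y := by
  unfold colF
  simp_rw [update_refl hlv, dec_refl hil]

theorem colF_mono (hd : 3 ≤ d) {i l v : Fin d} (hiv : i ≠ v) (hil : i ≠ l) (hlv : l ≠ v)
    {y : V d} (hy : 0 ≤ y i) (hl : 0 ≤ y l) : colF i v (y + vec (l, true)) ≤ colF i v y := by
  unfold colF
  have he : ∀ t : ℤ, Function.update (y + vec (l, true)) v t =
      Function.update y v t + vec (l, true) := fun t => update_add_vec y t hlv
  refine Summable.tsum_le_tsum (fun t => ?_) (summable_dec hd hiv ?_) (summable_dec hd hiv hy)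
  · rw [he]
    exact hit_mixed hd hil (by simpa [hiv] using hy) (by simpa [hlv] using hl)
  · simp [vec, hil]; exact hy

theorem colF_mono' (hd : 3 ≤ d) {i l v : Fin d} (hiv : i ≠ v) (hil : i ≠ l) (hlv : l ≠ v)
    {y : V d} (hy : 0 ≤ y i) (hl : y l ≤ 0) : colF i v (y + vec (l, false)) ≤ colF i v y := by
  have h1 : refl l 0 (y + vec (l, false)) = refl l 0 y + vec (l, true) := by
    rw [refl_add_vec]; simp [flipDir]
  rw [← colF_refl hil hlv (y + vec (l, false)), h1, ← colF_refl hil hlv y]
  refine colF_mono hd hiv hil hlv ?_ ?_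
  · rw [refl_of_ne hil]; exact hy
  · rw [refl_self]; omega

/-- the set of the columns -/
def pt (i l : Fin d) (c k : ℤ) : V d := Pi.single i c + Pi.single l k

theorem pt_i {i l : Fin d} (hil : i ≠ l) (c k : ℤ) : pt i l c k i = c := by
  simp [pt, hil]

theorem pt_l {i l : Fin d} (hil : i ≠ l) (c k : ℤ) : pt i l c k l = k := by
  simp [pt, Ne.symm hil]

theorem pt_of_ne {i l j : Fin d} (h1 : j ≠ i) (h2 : j ≠ l) (c k : ℤ) : pt i l c k j = 0 := by
  simp [pt, h1, h2]

theorem pt_add_i {i l : Fin d} (c k : ℤ) : pt i l c k + vec (i, true) = pt i l (c + 1) k := by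
  simp only [pt, vec, if_true, Pi.single_add]
  abel

theorem pt_sub_i {i l : Fin d} (c k : ℤ) : pt i l c k + vec (i, false) = pt i l (c - 1) k := by
  simp only [pt, vec, Bool.false_eq_true, if_false, sub_eq_add_neg, Pi.single_add]
  abel

theorem pt_add_l {i l : Fin d} (c k : ℤ) : pt i l c k + vec (l, true) = pt i l c (k + 1) := by
  simp only [pt, vec, if_true, Pi.single_add]
  abel

theorem pt_sub_l {i l : Fin d} (c k : ℤ) : pt i l c k + vec (l, false) = pt i l c (k - 1) := by
  simp only [pt, vec, Bool.false_eq_true, if_false, sub_eq_add_neg, Pi.single_add]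
  abel

/-- subharmonicity in a coordinate plane -/
theorem colF_sub (hd : 3 ≤ d) {i l v : Fin d} (hiv : i ≠ v) (hil : i ≠ l) (hlv : l ≠ v)
    {c : ℤ} (hc : 1 ≤ c) (k : ℤ) :
    4 * colF i v (pt i l c k) ≤ colF i v (pt i l (c + 1) k) + colF i v (pt i l (c - 1) k) +
      colF i v (pt i l c (k + 1)) + colF i v (pt i l c (k - 1)) := by
  classical
  set y := pt i l c k with hy
  have hyi : y i = c := pt_i hil c k
  have h1 := colF_harm hd hiv (y := y) (by omega)
  rw [sum_dir] at h1
  have h2 : ∀ j, j ≠ i → j ≠ l →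
      colF i v (y + vec (j, true)) + colF i v (y + vec (j, false)) ≤ 2 * colF i v y := by
    intro j hji hjl
    by_cases hj : j = v
    · subst hj
      have : ∀ b, colF i j (y + vec (j, b)) = colF i j y := by
        intro b
        unfold colF
        simp_rw [update_add_vec_self]
      rw [this, this]
      linarith
    · have hy0 : y j = 0 := pt_of_ne hji hjl c k
      have a1 := colF_mono hd hiv (Ne.symm hji) hj (y := y) (by omega) (by omega)
      have a2 := colF_mono' hd hiv (Ne.symm hji) hj (y := y) (by omega) (by omega)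
      linarith
  have h3 : ∑ j, (colF i v (y + vec (j, true)) + colF i v (y + vec (j, false))) ≤
      ∑ j, (2 * colF i v y +
        (if j = i then colF i v (y + vec (i, true)) + colF i v (y + vec (i, false)) -
          2 * colF i v y else 0) +
        (if j = l then colF i v (y + vec (l, true)) + colF i v (y + vec (l, false)) -
          2 * colF i v y else 0)) := by
    refine sum_le_sum fun j _ => ?_
    by_cases hji : j = i
    · subst hji
      simp [hil]
    · by_cases hjl : j = l
      · subst hjl
        simp [hji]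
      · simp only [hji, hjl, if_false, add_zero]
        exact h2 j hji hjl
  have h4 : ∑ j, (2 * colF i v y +
        (if j = i then colF i v (y + vec (i, true)) + colF i v (y + vec (i, false)) -
          2 * colF i v y else 0) +
        (if j = l then colF i v (y + vec (l, true)) + colF i v (y + vec (l, false)) -
          2 * colF i v y else 0)) = d * (2 * colF i v y) +
        (colF i v (y + vec (i, true)) + colF i v (y + vec (i, false)) - 2 * colF i v y) +
        (colF i v (y + vec (l, true)) + colF i v (y + vec (l, false)) - 2 * colF i v y) := by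
    rw [sum_add_distrib, sum_add_distrib, sum_ite_eq' univ i, sum_ite_eq' univ l, sum_const,
      card_univ, Fintype.card_fin, nsmul_eq_mul]
    simp only [mem_univ, if_true]
  rw [h1, h4, hy, pt_add_i, pt_sub_i, pt_add_l, pt_sub_l, ← hy] at h3
  linarith

theorem convex_bounded {a : ℕ → ℝ} {M : ℝ} (h0 : ∀ c, 0 ≤ a c) (hM : ∀ c, a c ≤ M)
    (hc : ∀ c, 2 * a (c + 1) ≤ a (c + 2) + a c) : Antitone a := by
  have hmono : ∀ c n, a (c + 1) - a c ≤ a (c + n + 1) - a (c + n) := by
    intro c n
    induction n with
    | zero => simp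
    | succ n ih =>
      have := hc (c + n)
      have e1 : c + (n + 1) + 1 = c + n + 2 := by ring
      have e2 : c + (n + 1) = c + n + 1 := by ring
      rw [e1, e2]
      linarith
  refine antitone_nat_of_succ_le fun c => ?_
  by_contra hneg
  push Not at hneg
  set δ := a (c + 1) - a c with hδ
  have hδ0 : 0 < δ := by rw [hδ]; linarith
  have hlin : ∀ n : ℕ, a c + n * δ ≤ a (c + n) := by
    intro n
    induction n with
    | zero => simp
    | succ n ih =>
      have := hmono c n
      push_cast
      have e : c + (n + 1) = c + n + 1 := by ring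
      rw [e]
      nlinarith
  obtain ⟨n, hn⟩ := exists_nat_gt (M / δ)
  have h1 := hlin n
  have h2 := hM (c + n)
  have h3 := h0 c
  rw [div_lt_iff₀ hδ0] at hn
  linarith

theorem tendsto_colF_axis (hd : 3 ≤ d) {i l v : Fin d} (hiv : i ≠ v) (hil : i ≠ l)
    (hlv : l ≠ v) : Tendsto (fun c : ℕ => colF i v (pt i l c 0)) atTop (𝓝 0) := by
  have hd0 : 0 < d := by omega
  have hnn : ∀ (c : ℕ) (k : ℤ), 0 ≤ colF i v (pt i l c k) := fun c k =>
    colF_nonneg hd hiv (by rw [pt_i hil]; omega)
  have hle : ∀ (c : ℕ) (k : ℤ), colF i v (pt i l c k) ≤ flux d := fun c k =>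
    colF_le hd hiv (by rw [pt_i hil]; omega)
  have hmon : ∀ (c : ℕ) (k : ℤ), 0 ≤ k →
      colF i v (pt i l c (k + 1)) ≤ colF i v (pt i l c k) := by
    intro c k hk
    rw [← pt_add_l]
    exact colF_mono hd hiv hil hlv (by rw [pt_i hil]; omega) (by rw [pt_l hil]; exact hk)
  have hmon' : ∀ (c : ℕ), colF i v (pt i l c (0 - 1)) ≤ colF i v (pt i l c 0) := by
    intro c
    rw [← pt_sub_l]
    exact colF_mono' hd hiv hil hlv (by rw [pt_i hil]; omega) (by rw [pt_l hil])
  have hstar : ∀ (c : ℕ) (k : ℤ), 4 * colF i v (pt i l ((c + 1 : ℕ) : ℤ) k) ≤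
      colF i v (pt i l ((c + 2 : ℕ) : ℤ) k) + colF i v (pt i l (c : ℤ) k) +
      colF i v (pt i l ((c + 1 : ℕ) : ℤ) (k + 1)) +
      colF i v (pt i l ((c + 1 : ℕ) : ℤ) (k - 1)) := by
    intro c k
    have := colF_sub hd hiv hil hlv (c := ((c + 1 : ℕ) : ℤ)) (by push_cast; omega) k
    have e1 : ((c + 1 : ℕ) : ℤ) + 1 = ((c + 2 : ℕ) : ℤ) := by push_cast; ring
    have e2 : ((c + 1 : ℕ) : ℤ) - 1 = (c : ℤ) := by push_cast; ring
    rwa [e1, e2] at this
  have hanti : Antitone fun c : ℕ => colF i v (pt i l c 0) := by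
    refine convex_bounded (M := flux d) (fun c => hnn c 0) (fun c => hle c 0) fun c => ?_
    have h1 := hstar c 0
    have h2 := hmon (c + 1) 0 le_rfl
    have h3 := hmon' (c + 1)
    linarith
  obtain ⟨L, hL⟩ : ∃ L, Tendsto (fun c : ℕ => colF i v (pt i l c 0)) atTop (𝓝 L) :=
    ⟨_, tendsto_atTop_ciInf hanti ⟨0, by rintro _ ⟨c, rfl⟩; exact hnn c 0⟩⟩
  have hL0 : 0 ≤ L := ge_of_tendsto' hL fun c => hnn c 0
  have hshift : ∀ {f : ℕ → ℝ} {L : ℝ} (n : ℕ), Tendsto f atTop (𝓝 L) →
      Tendsto (fun c => f (c + n)) atTop (𝓝 L) := fun n h => (tendsto_add_atTop_iff_nat n).2 h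
  have hP : ∀ k : ℕ, Tendsto (fun c : ℕ => colF i v (pt i l c k)) atTop (𝓝 L) ∧
      Tendsto (fun c : ℕ => colF i v (pt i l c ((k : ℤ) + 1))) atTop (𝓝 L) := by
    intro k
    induction k with
    | zero =>
      refine ⟨by simpa using hL, ?_⟩
      rw [← tendsto_add_atTop_iff_nat 1]
      have hlow : Tendsto (fun c : ℕ => 4 * colF i v (pt i l ((c + 1 : ℕ) : ℤ) 0) -
          colF i v (pt i l ((c + 2 : ℕ) : ℤ) 0) - colF i v (pt i l (c : ℤ) 0) -
          colF i v (pt i l ((c + 1 : ℕ) : ℤ) 0)) atTop (𝓝 (4 * L - L - L - L)) :=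
        ((((hshift 1 hL).const_mul 4).sub (hshift 2 hL)).sub hL).sub (hshift 1 hL)
      have e : 4 * L - L - L - L = L := by ring
      rw [e] at hlow
      refine tendsto_of_tendsto_of_tendsto_of_le_of_le hlow (hshift 1 hL) (fun c => ?_)
        (fun c => ?_)
      · have h1 := hstar c 0
        have h3 := hmon' (c + 1)
        simp only [Nat.cast_zero]
        linarith
      · have h2 := hmon (c + 1) 0 le_rfl
        simpa using h2
    | succ k ih =>
      obtain ⟨ih0, ih1⟩ := ih
      refine ⟨by simpa using ih1, ?_⟩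
      rw [← tendsto_add_atTop_iff_nat 1]
      have hlow : Tendsto (fun c : ℕ => 4 * colF i v (pt i l ((c + 1 : ℕ) : ℤ) ((k : ℤ) + 1)) -
          colF i v (pt i l ((c + 2 : ℕ) : ℤ) ((k : ℤ) + 1)) -
          colF i v (pt i l (c : ℤ) ((k : ℤ) + 1)) -
          colF i v (pt i l ((c + 1 : ℕ) : ℤ) (k : ℤ))) atTop (𝓝 (4 * L - L - L - L)) :=
        ((((hshift 1 ih1).const_mul 4).sub (hshift 2 ih1)).sub ih1).sub (hshift 1 ih0)
      have e : 4 * L - L - L - L = L := by ring
      rw [e] at hlow
      refine tendsto_of_tendsto_of_tendsto_of_le_of_le hlow (hshift 1 ih1) (fun c => ?_)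
        (fun c => ?_)
      · have h1 := hstar c ((k : ℤ) + 1)
        have e3 : (k : ℤ) + 1 - 1 = k := by ring
        rw [e3] at h1
        push_cast at h1 ⊢
        linarith
      · have h2 := hmon (c + 1) ((k : ℤ) + 1) (by omega)
        push_cast at h2 ⊢
        exact h2
  have hK : ∀ K : ℕ, (K : ℝ) * L ≤ flux d := by
    intro K
    have hlim : Tendsto (fun c : ℕ => ∑ k ∈ range K, colF i v (pt i l c (k : ℤ))) atTop
        (𝓝 (∑ _k ∈ range K, L)) := tendsto_finset_sum _ fun k _ => (hP k).1
    have hb : ∀ c : ℕ, ∑ k ∈ range K, colF i v (pt i l c (k : ℤ)) ≤ flux d := by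
      intro c
      classical
      have hinj : Set.InjOn (fun k : ℕ => pt i l (c : ℤ) (k : ℤ)) (range K : Set ℕ) := by
        intro a _ b _ hab
        have := congrFun hab l
        simp only [pt_l hil] at this
        exact_mod_cast this
      rw [← sum_image (f := fun y => colF i v y) hinj]
      refine sum_colF_le hd hiv (c := c) (by omega) _ ?_
      intro y hy
      rw [mem_image] at hy
      obtain ⟨k, _, rfl⟩ := hy
      exact ⟨pt_i hil _ _, pt_of_ne (Ne.symm hiv) (Ne.symm hlv) _ _⟩
    have := le_of_tendsto' hlim hb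
    simpa using this
  have hLle : L ≤ 0 := by
    by_contra hpos
    push Not at hpos
    obtain ⟨K, hKK⟩ := exists_nat_gt (flux d / L)
    rw [div_lt_iff₀ hpos] at hKK
    have := hK K
    linarith
  have : L = 0 := le_antisymm hLle hL0
  rwa [this] at hL

end

end Pool.Agent.H282R3.RW
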