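import Pool.Agent.H282R3.RW.Column

/-!
# The total increment of the hitting probability along a column tends to zero
-/

namespace Pool.Agent.H282R3.RW

open MeasureTheory Filter Topology Finset

noncomputable section

variable {d : ℕ}

theorem vec_cancel (y : V d) (l : Fin d) : y + vec (l, false) + vec (l, true) = y := by
  ext k
  by_cases hk : k = l
  · subst hk; simp [vec]
  · simp [vec, hk]

theorem vec_cancel' (y : V d) (l : Fin d) : y + vec (l, true) + vec (l, false) = y := by
  ext k
  by_cases hk : k = l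
  · subst hk; simp [vec]
  · simp [vec, hk]

theorem update_add_vec_zero (y : V d) (l : Fin d) (b : Bool) :
    Function.update (y + vec (l, b)) l 0 = Function.update y l 0 := update_add_vec_self y 0 b

theorem colF_zero (hd : 3 ≤ d) {i l v : Fin d} (hiv : i ≠ v) (hil : i ≠ l) (hlv : l ≠ v) (n : ℕ) :
    ∀ y : V d, 0 ≤ y i → (y l).natAbs = n → colF i v y ≤ colF i v (Function.update y l 0) := by
  induction n with
  | zero =>
    intro y _ hn
    have : y l = 0 := Int.natAbs_eq_zero.1 hn
    rw [← this, Function.update_eq_self]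
  | succ n ih =>
    intro y hy hn
    rcases lt_trichotomy (y l) 0 with h | h | h
    · have hy' : (y + vec (l, true)) l = y l + 1 := by simp [vec]
      have hyi : (y + vec (l, true)) i = y i := by simp [vec, hil]
      have h1 := ih (y + vec (l, true)) (by rw [hyi]; exact hy) (by rw [hy']; omega)
      rw [update_add_vec_zero] at h1
      have h2 := colF_mono' hd hiv hil hlv (y := y + vec (l, true)) (by rw [hyi]; exact hy)
        (by rw [hy']; omega)
      rw [vec_cancel'] at h2
      exact h2.trans h1
    · rw [h] at hn; simp at hn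
    · have hy' : (y + vec (l, false)) l = y l - 1 := by simp [vec]; ring
      have hyi : (y + vec (l, false)) i = y i := by simp [vec, hil]
      have h1 := ih (y + vec (l, false)) (by rw [hyi]; exact hy) (by rw [hy']; omega)
      rw [update_add_vec_zero] at h1
      have h2 := colF_mono hd hiv hil hlv (y := y + vec (l, false)) (by rw [hyi]; exact hy)
        (by rw [hy']; omega)
      rw [vec_cancel] at h2
      exact h2.trans h1

open Classical in
theorem colF_zero_set (hd : 3 ≤ d) {i v : Fin d} (hiv : i ≠ v) (y : V d) (hy : 0 ≤ y i)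
    (S : Finset (Fin d)) : i ∉ S → v ∉ S →
    colF i v y ≤ colF i v (fun j => if j ∈ S then 0 else y j) := by
  induction S using Finset.induction_on with
  | empty => intro _ _; simp
  | insert l S hl ih =>
    intro hi hv
    rw [mem_insert, not_or] at hi hv
    refine (ih hi.2 hv.2).trans ?_
    have h1 := colF_zero hd hiv hi.1 (Ne.symm hv.1) _ (fun j => if j ∈ S then 0 else y j)
      (by simp only [hi.2, if_false]; exact hy) rfl
    refine h1.trans (le_of_eq ?_)
    congr 1
    ext j
    by_cases hj : j = l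
    · subst hj; simp
    · simp [hj]

theorem colF_le_axis (hd : 3 ≤ d) {i l v : Fin d} (hiv : i ≠ v) (hil : i ≠ l)
    (y : V d) (hy : 0 ≤ y i) (hyv : y v = 0) :
    colF i v y ≤ colF i v (pt i l (y i) 0) := by
  classical
  have h1 := colF_zero_set hd hiv y hy ((univ.erase i).erase v) (by simp) (by simp)
  refine h1.trans (le_of_eq ?_)
  congr 1
  ext j
  by_cases hji : j = i
  · subst hji; rw [pt_i hil]; simp
  · by_cases hjv : j = v
    · subst hjv
      by_cases hjl : j = l
      · subst hjl; rw [pt_l hil]; simp [hyv]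
      · rw [pt_of_ne hji hjl]; simp [hyv]
    · by_cases hjl : j = l
      · subst hjl; rw [pt_l hil]; simp [hji, hjv]
      · rw [pt_of_ne hji hjl]; simp [hji, hjv]

theorem finite_colF (hd : 3 ≤ d) {i v : Fin d} (hiv : i ≠ v) {ε : ℝ} (hε : 0 < ε) :
    {y : V d | y v = 0 ∧ 0 ≤ y i ∧ ε ≤ colF i v y}.Finite := by
  classical
  obtain ⟨l, hli, hlv⟩ : ∃ l : Fin d, l ≠ i ∧ l ≠ v := by
    have hcard : ({i, v} : Finset (Fin d)).card < (univ : Finset (Fin d)).card := by
      rw [card_univ, Fintype.card_fin]
      exact lt_of_le_of_lt card_le_two (by omega)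
    obtain ⟨l, _, hl⟩ := exists_mem_notMem_of_card_lt_card hcard
    rw [mem_insert, mem_singleton, not_or] at hl
    exact ⟨l, hl.1, hl.2⟩
  have hlim := tendsto_colF_axis hd hiv (Ne.symm hli) hlv
  have hev : ∀ᶠ c : ℕ in atTop, colF i v (pt i l c 0) < ε := hlim.eventually (gt_mem_nhds hε)
  obtain ⟨c0, hc0⟩ := eventually_atTop.1 hev
  have hsub : {y : V d | y v = 0 ∧ 0 ≤ y i ∧ ε ≤ colF i v y} ⊆
      ⋃ c ∈ Set.Iio c0, {y : V d | y v = 0 ∧ y i = (c : ℤ) ∧ ε ≤ colF i v y} := by
    rintro y ⟨h1, h2, h3⟩
    simp only [Set.mem_iUnion]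
    obtain ⟨c, hc⟩ := Int.eq_ofNat_of_zero_le h2
    refine ⟨c, ?_, h1, hc, h3⟩
    by_contra hge
    have hge' : c0 ≤ c := by
      rw [Set.mem_Iio] at hge
      omega
    have h4 := hc0 c hge'
    have h5 := colF_le_axis hd hiv (Ne.symm hli) y h2 h1
    rw [hc] at h5
    linarith
  refine Set.Finite.subset (Set.Finite.biUnion (Set.finite_Iio c0) fun c _ => ?_) hsub
  by_contra hinf
  have hinf' : {y : V d | y v = 0 ∧ y i = (c : ℤ) ∧ ε ≤ colF i v y}.Infinite := hinf
  obtain ⟨n, hn⟩ := exists_nat_gt (flux d / ε)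
  obtain ⟨Y, hY, hcard⟩ := hinf'.exists_subset_card_eq n
  have h1 := sum_colF_le hd hiv (c := (c : ℤ)) (by omega) Y fun y hy => by
    have := hY hy
    exact ⟨this.2.1, this.1⟩
  have h2 : (n : ℝ) * ε ≤ ∑ y ∈ Y, colF i v y := by
    rw [← hcard, ← nsmul_eq_mul]
    exact card_nsmul_le_sum Y _ ε fun y hy => (hY hy).2.2
  rw [div_lt_iff₀ hε] at hn
  linarith

/-- sum of the increments in the direction `e` over the column of `y` -/
def colK (v : Fin d) (e : Dir d) (y : V d) : ℝ :=
  ∑' t : ℤ, |hit (Function.update y v t + vec e) - hit (Function.update y v t)|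

theorem abs_inc_of_nonneg (hd : 3 ≤ d) {i : Fin d} {z : V d} (hz : 0 ≤ z i) :
    |hit (z + vec (i, true)) - hit z| = dec i z := by
  rw [abs_sub_comm, abs_of_nonneg]
  · rfl
  · exact sub_nonneg.2 (hit_mono hd hz)

theorem abs_inc_of_neg (hd : 3 ≤ d) {i : Fin d} {z : V d} (hz : z i < 0) :
    |hit (z + vec (i, true)) - hit z| = dec i (refl i (-1) z) := by
  have h1 : refl i (-1) z = refl i 0 (z + vec (i, true)) := by
    ext k
    by_cases hk : k = i
    · subst hk; rw [refl_self, refl_self]; simp [vec]; ring
    · rw [refl_of_ne hk, refl_of_ne hk]; simp [vec, hk]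
  have h2 : refl i (-1) z + vec (i, true) = refl i 0 z := by
    ext k
    by_cases hk : k = i
    · subst hk; rw [refl_self, Pi.add_apply, refl_self]; simp [vec]; ring
    · rw [refl_of_ne hk, Pi.add_apply, refl_of_ne hk]; simp [vec, hk]
  have h3 : dec i (refl i (-1) z) = hit (z + vec (i, true)) - hit z := by
    unfold dec
    rw [h2, h1, hit_refl, hit_refl]
  have h4 : 0 ≤ dec i (refl i (-1) z) := dec_nonneg hd (by rw [refl_self]; omega)
  rw [← h3, abs_of_nonneg h4]

theorem colK_true (hd : 3 ≤ d) {i v : Fin d} (hiv : i ≠ v) (y : V d) :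
    (Summable fun t : ℤ =>
      |hit (Function.update y v t + vec (i, true)) - hit (Function.update y v t)|) ∧
    colK v (i, true) y = if 0 ≤ y i then colF i v y else colF i v (refl i (-1) y) := by
  split_ifs with h
  · have he : (fun t : ℤ =>
      |hit (Function.update y v t + vec (i, true)) - hit (Function.update y v t)|) =
      fun t : ℤ => dec i (Function.update y v t) := by
      funext t
      exact abs_inc_of_nonneg hd (by simpa [hiv] using h)
    refine ⟨?_, ?_⟩
    · rw [he]; exact summable_dec hd hiv h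
    · unfold colK colF; rw [he]
  · have he : (fun t : ℤ =>
      |hit (Function.update y v t + vec (i, true)) - hit (Function.update y v t)|) =
      fun t : ℤ => dec i (Function.update (refl i (-1) y) v t) := by
      funext t
      rw [update_refl hiv]
      exact abs_inc_of_neg hd (by simpa [hiv] using h)
    refine ⟨?_, ?_⟩
    · rw [he]; exact summable_dec hd hiv (by rw [refl_self]; omega)
    · unfold colK colF; rw [he]

theorem finite_colK_true (hd : 3 ≤ d) {i v : Fin d} (hiv : i ≠ v) {ε : ℝ} (hε : 0 < ε) :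
    {y : V d | y v = 0 ∧ ε ≤ colK v (i, true) y}.Finite := by
  have hfin := finite_colF hd hiv hε
  refine (hfin.union (hfin.preimage ((refl_injective i (-1)).injOn))).subset ?_
  rintro y ⟨h1, h2⟩
  rw [(colK_true hd hiv y).2] at h2
  split_ifs at h2 with h
  · exact Or.inl ⟨h1, h, h2⟩
  · refine Or.inr ⟨?_, ?_, h2⟩
    · rw [refl_of_ne (Ne.symm hiv)]; exact h1
    · rw [refl_self]; omega

theorem colK_false (hd : 3 ≤ d) {i v : Fin d} (hiv : i ≠ v) (y : V d) :
    (Summable fun t : ℤ =>
      |hit (Function.update y v t + vec (i, false)) - hit (Function.update y v t)|) ∧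
    colK v (i, false) y = colK v (i, true) (y + vec (i, false)) := by
  have he : (fun t : ℤ =>
      |hit (Function.update y v t + vec (i, false)) - hit (Function.update y v t)|) =
      fun t : ℤ => |hit (Function.update (y + vec (i, false)) v t + vec (i, true)) -
        hit (Function.update (y + vec (i, false)) v t)| := by
    funext t
    rw [update_add_vec y t (e := (i, false)) hiv, vec_cancel, abs_sub_comm]
  refine ⟨?_, ?_⟩
  · rw [he]; exact (colK_true hd hiv _).1
  · unfold colK; rw [he]

theorem vec_add_injective (e : Dir d) : Function.Injective fun y : V d => y + vec e :=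
  add_left_injective _

theorem finite_colK_false (hd : 3 ≤ d) {i v : Fin d} (hiv : i ≠ v) {ε : ℝ} (hε : 0 < ε) :
    {y : V d | y v = 0 ∧ ε ≤ colK v (i, false) y}.Finite := by
  have hfin := finite_colK_true hd hiv hε
  refine (hfin.preimage ((vec_add_injective (i, false)).injOn)).subset ?_
  rintro y ⟨h1, h2⟩
  rw [(colK_false hd hiv y).2] at h2
  refine ⟨?_, h2⟩
  simp [vec, Ne.symm hiv, h1]

theorem vert_sum_le (hd : 3 ≤ d) (v : Fin d) (y : V d) (s : Finset ℤ) :
    ∑ t ∈ s, |hit (Function.update y v t + vec (v, true)) - hit (Function.update y v t)| ≤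
      2 * hit (Function.update y v 0) := by
  have hd0 : 0 < d := by omega
  set f : ℤ → ℝ := fun t => hit (Function.update y v t) with hf
  have hstep : ∀ t, |hit (Function.update y v t + vec (v, true)) - hit (Function.update y v t)| =
      |f (t + 1) - f t| := by
    intro t
    rw [update_shift]
  have hup : ∀ t : ℤ, 0 ≤ t → |f (t + 1) - f t| = f t - f (t + 1) := by
    intro t ht
    have := hit_mono hd (i := v) (z := Function.update y v t) (by simpa using ht)
    rw [update_shift] at this
    rw [abs_sub_comm, abs_of_nonneg (sub_nonneg.2 this)]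
  have hdown : ∀ t : ℤ, t < 0 → |f (t + 1) - f t| = f (t + 1) - f t := by
    intro t ht
    have := hit_mono' hd (i := v) (z := Function.update y v (t + 1)) (by
      simp; omega)
    rw [update_shift', add_sub_cancel_right] at this
    exact abs_of_nonneg (sub_nonneg.2 this)
  have hpos : ∀ N : ℕ, ∑ t ∈ range N, |f ((t : ℤ) + 1) - f t| = f 0 - f N := by
    intro N
    induction N with
    | zero => simp
    | succ N ih =>
      rw [sum_range_succ, ih, hup _ (by omega)]
      push_cast
      ring
  have hneg : ∀ N : ℕ, ∑ t ∈ range N, |f (-(t : ℤ) - 1 + 1) - f (-(t : ℤ) - 1)| =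
      f 0 - f (-(N : ℤ)) := by
    intro N
    induction N with
    | zero => simp
    | succ N ih =>
      rw [sum_range_succ, ih, hdown _ (by omega)]
      have e1 : -(N : ℤ) - 1 + 1 = -(N : ℤ) := by ring
      have e2 : -(N : ℤ) - 1 = -((N + 1 : ℕ) : ℤ) := by push_cast; ring
      rw [e1, e2]
      ring
  simp_rw [hstep]
  obtain ⟨N, hN⟩ : ∃ N : ℕ, ∀ t ∈ s, -(N : ℤ) ≤ t ∧ t < N := by
    refine ⟨∑ t ∈ s, (t.natAbs + 1), fun t ht => ?_⟩
    have h1 : t.natAbs + 1 ≤ ∑ t ∈ s, (t.natAbs + 1) :=
      single_le_sum (f := fun t : ℤ => t.natAbs + 1) (fun _ _ => Nat.zero_le _) ht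
    omega
  classical
  have hsub : s ⊆ (range N).image (fun t : ℕ => (t : ℤ)) ∪
      (range N).image (fun t : ℕ => -(t : ℤ) - 1) := by
    intro t ht
    obtain ⟨h1, h2⟩ := hN t ht
    rw [mem_union, mem_image, mem_image]
    rcases le_or_gt 0 t with h | h
    · left; exact ⟨t.toNat, by rw [mem_range]; omega, by omega⟩
    · right; exact ⟨(-t - 1).toNat, by rw [mem_range]; omega, by omega⟩
  calc ∑ t ∈ s, |f (t + 1) - f t|
      ≤ ∑ t ∈ (range N).image (fun t : ℕ => (t : ℤ)) ∪
        (range N).image (fun t : ℕ => -(t : ℤ) - 1), |f (t + 1) - f t| :=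
        sum_le_sum_of_subset_of_nonneg hsub fun _ _ _ => abs_nonneg _
    _ ≤ ∑ t ∈ (range N).image (fun t : ℕ => (t : ℤ)), |f (t + 1) - f t| +
        ∑ t ∈ (range N).image (fun t : ℕ => -(t : ℤ) - 1), |f (t + 1) - f t| := by
        rw [← sum_union_inter]
        exact le_add_of_nonneg_right (sum_nonneg fun _ _ => abs_nonneg _)
    _ = (f 0 - f N) + (f 0 - f (-(N : ℤ))) := by
        rw [sum_image (by intro a _ b _ h; simp only [] at h; omega),
          sum_image (by intro a _ b _ h; simp only [] at h; omega), hpos, hneg]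
    _ ≤ 2 * f 0 := by
        have h1 : 0 ≤ f N := hit_nonneg hd0 _
        have h2 : 0 ≤ f (-(N : ℤ)) := hit_nonneg hd0 _
        linarith

theorem colK_vert (hd : 3 ≤ d) (v : Fin d) (y : V d) :
    (Summable fun t : ℤ =>
      |hit (Function.update y v t + vec (v, true)) - hit (Function.update y v t)|) ∧
    colK v (v, true) y ≤ 2 * hit (Function.update y v 0) :=
  have hs : Summable fun t : ℤ =>
      |hit (Function.update y v t + vec (v, true)) - hit (Function.update y v t)| :=
    summable_of_sum_le (fun _ => abs_nonneg _) (vert_sum_le hd v y)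
  ⟨hs, hs.tsum_le_of_sum_le (vert_sum_le hd v y)⟩

theorem colK_vert' (hd : 3 ≤ d) (v : Fin d) (y : V d) :
    (Summable fun t : ℤ =>
      |hit (Function.update y v t + vec (v, false)) - hit (Function.update y v t)|) ∧
    colK v (v, false) y = colK v (v, true) y := by
  have he : (fun t : ℤ =>
      |hit (Function.update y v t + vec (v, false)) - hit (Function.update y v t)|) =
      fun t : ℤ => |hit (Function.update y v (t + -1) + vec (v, true)) -
        hit (Function.update y v (t + -1))| := by
    funext t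
    rw [update_shift', update_shift, neg_add_cancel_right, ← sub_eq_add_neg, abs_sub_comm]
  have := shift_sum (colK_vert hd v y).1 (-1)
  refine ⟨?_, ?_⟩
  · rw [he]; exact this.1
  · unfold colK; rw [he]; exact this.2

theorem summable_colK (hd : 3 ≤ d) (v : Fin d) (e : Dir d) (y : V d) :
    Summable fun t : ℤ =>
      |hit (Function.update y v t + vec e) - hit (Function.update y v t)| := by
  obtain ⟨j, b⟩ := e
  by_cases hj : j = v
  · subst hj
    cases b
    · exact (colK_vert' hd j y).1
    · exact (colK_vert hd j y).1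
  · cases b
    · exact (colK_false hd hj y).1
    · exact (colK_true hd hj y).1

theorem finite_colK (hd : 3 ≤ d) (v : Fin d) (e : Dir d) {ε : ℝ} (hε : 0 < ε) :
    {y : V d | y v = 0 ∧ ε ≤ colK v e y}.Finite := by
  have hvert : {y : V d | y v = 0 ∧ ε ≤ colK v (v, true) y}.Finite := by
    have h1 : ∀ᶠ y : V d in cofinite, hit y < ε / 2 :=
      (tendsto_hit hd).eventually (gt_mem_nhds (by positivity))
    rw [eventually_cofinite] at h1
    refine h1.subset ?_
    rintro y ⟨h2, h3⟩
    have h4 := (colK_vert hd v y).2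
    rw [← h2, Function.update_eq_self] at h4
    simp only [Set.mem_ofPred_eq, not_lt]
    linarith
  obtain ⟨j, b⟩ := e
  by_cases hj : j = v
  · subst hj
    cases b
    · simp_rw [(colK_vert' hd j _).2]
      exact hvert
    · exact hvert
  · cases b
    · exact finite_colK_false hd hj hε
    · exact finite_colK_true hd hj hε

/-- total increment at `z` -/
def inc (z : V d) : ℝ := ∑ e : Dir d, |hit (z + vec e) - hit z|

theorem inc_nonneg (z : V d) : 0 ≤ inc z := sum_nonneg fun _ _ => abs_nonneg _

/-- total increment over the column of `y` -/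
def colD (v : Fin d) (y : V d) : ℝ := ∑' t : ℤ, inc (Function.update y v t)

theorem summable_inc (hd : 3 ≤ d) (v : Fin d) (y : V d) :
    Summable fun t : ℤ => inc (Function.update y v t) :=
  summable_sum fun e _ => summable_colK hd v e y

theorem colD_eq (hd : 3 ≤ d) (v : Fin d) (y : V d) : colD v y = ∑ e, colK v e y :=
  Summable.tsum_finsetSum fun e _ => summable_colK hd v e y

theorem colD_nonneg (v : Fin d) (y : V d) : 0 ≤ colD v y := tsum_nonneg fun _ => inc_nonneg _

theorem finite_colD (hd : 3 ≤ d) (v : Fin d) {ε : ℝ} (hε : 0 < ε) :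
    {y : V d | y v = 0 ∧ ε ≤ colD v y}.Finite := by
  have hd0 : (0 : ℝ) < 2 * d := by
    have : 0 < d := by omega
    positivity
  refine Set.Finite.subset (Set.finite_iUnion fun e : Dir d =>
    finite_colK hd v e (ε := ε / (2 * d)) (by positivity)) ?_
  rintro y ⟨h1, h2⟩
  rw [colD_eq hd] at h2
  simp only [Set.mem_iUnion]
  by_contra hne
  push Not at hne
  have h3 : ∀ e : Dir d, colK v e y < ε / (2 * d) := by
    intro e
    by_contra h
    push Not at h
    exact hne e ⟨h1, h⟩
  have h4 : ∑ e : Dir d, colK v e y < ∑ _e : Dir d, ε / (2 * d) := by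
    have hne' : (univ : Finset (Dir d)).Nonempty := ⟨(v, true), mem_univ _⟩
    exact sum_lt_sum_of_nonempty hne' fun e _ => h3 e
  have h5 : ∑ _e : Dir d, ε / (2 * d) = ε := by
    have h6 : ∑ _e : Dir d, ε / (2 * (d : ℝ)) = (∑ _e : Dir d, (1 : ℝ)) * (ε / (2 * d)) := by
      rw [sum_mul]; simp
    rw [h6, card_dir]
    field_simp
  linarith

end

end Pool.Agent.H282R3.RW
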