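import Mathlib

/-!
# Rotor walks and simple random walk on `ℤ ^ d`
-/

namespace Pool.Agent.H282R3.RW

open MeasureTheory Filter Topology

/-- The vertices of `ℤ ^ d`. -/
abbrev V (d : ℕ) := Fin d → ℤ

/-- The `2 * d` directions: `(i, true)` stands for `e_i` and `(i, false)` for `- e_i`. -/
abbrev Dir (d : ℕ) := Fin d × Bool

/-- The unit vector in the direction `e`. -/
def vec {d : ℕ} (e : Dir d) : V d := Pi.single e.1 (if e.2 then 1 else -1)

/-- `m` is a rotor mechanism: for each vertex `x`, the permutation `m x` of the set of the `2 * d`
directions is a single `2 * d`-cycle. -/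
def IsMechanism {d : ℕ} (m : V d → Equiv.Perm (Dir d)) : Prop :=
  ∀ x, (m x).IsCycle ∧ (m x).support = Finset.univ

/-- One step of the rotor walk: the particle at `s.1` moves in the direction of the rotor at its
position, and then this rotor is advanced. -/
def step {d : ℕ} (m : V d → Equiv.Perm (Dir d)) (s : V d × (V d → Dir d)) :
    V d × (V d → Dir d) :=
  (s.1 + vec (s.2 s.1), Function.update s.2 s.1 (m s.1 (s.2 s.1)))

/-- Position of the particle and rotor configuration after `k` steps, for the rotor walk from the
origin with initial configuration `ρ`. -/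
def walk {d : ℕ} (m : V d → Equiv.Perm (Dir d)) (ρ : V d → Dir d) (k : ℕ) :
    V d × (V d → Dir d) :=
  (step m)^[k] (0, ρ)

/-- The particle returns to the origin. -/
def Returns {d : ℕ} (m : V d → Equiv.Perm (Dir d)) (ρ : V d → Dir d) : Prop :=
  ∃ k, 1 ≤ k ∧ (walk m ρ k).1 = 0

/-- The particle never returns to the origin. -/
def Escapes {d : ℕ} (m : V d → Equiv.Perm (Dir d)) (ρ : V d → Dir d) : Prop :=
  ¬ Returns m ρ

open Classical in
/-- The rotor configuration left by a particle which starts at the origin with the configuration
`ρ`: the configuration at the first return to the origin or, if the particle escapes, the final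
position of each rotor (each rotor moves only finitely many times). -/
noncomputable def after {d : ℕ} [NeZero d] (m : V d → Equiv.Perm (Dir d)) (ρ : V d → Dir d) :
    V d → Dir d :=
  if h : Returns m ρ then (walk m ρ (Nat.find h)).2
  else fun x => Classical.epsilon (fun e : Dir d => ∀ᶠ k in atTop, (walk m ρ k).2 x = e)

/-- The rotor configuration after `n` particles, started from `ρ`. -/
noncomputable def conf {d : ℕ} [NeZero d] (m : V d → Equiv.Perm (Dir d)) (ρ : V d → Dir d) :
    ℕ → V d → Dir d
  | 0 => ρ
  | n + 1 => after m (conf m ρ n)

open Classical in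
/-- The number of the first `n` particles which escape. -/
noncomputable def escapeCount {d : ℕ} [NeZero d] (m : V d → Equiv.Perm (Dir d))
    (ρ : V d → Dir d) (n : ℕ) : ℕ :=
  ((Finset.range n).filter (fun j => Escapes m (conf m ρ j))).card

/-- The law of a sequence of independent uniform directions. -/
noncomputable def steps (d : ℕ) [NeZero d] : Measure (ℕ → Dir d) :=
  Measure.infinitePi (fun _ : ℕ => (PMF.uniformOfFintype (Dir d)).toMeasure)

/-- The position of the simple random walk from the origin after `k` steps. -/
def pos {d : ℕ} (ω : ℕ → Dir d) (k : ℕ) : V d := ∑ j ∈ Finset.range k, vec (ω j)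

/-- The probability that the simple random walk from the origin never returns to the origin. -/
noncomputable def escapeProb (d : ℕ) [NeZero d] : ℝ :=
  (steps d).real {ω | ∀ k, 1 ≤ k → pos ω k ≠ 0}

end Pool.Agent.H282R3.RW
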