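import Pool.Agent.H282R3.RW.Mono

/-!
# The flux through a hyperplane
-/

namespace Pool.Agent.H282R3.RW

open MeasureTheory Filter Topology Finset

noncomputable section

variable {d : ℕ}

theorem hit_mono' (hd : 3 ≤ d) {i : Fin d} {z : V d} (hz : z i ≤ 0) :
    hit (z + vec (i, false)) ≤ hit z := by
  have h1 : 0 ≤ refl i 0 z i := by rw [refl_self]; omega
  have h2 := hit_mono hd h1
  rw [hit_refl] at h2
  have h3 : refl i 0 (z + vec (i, false)) = refl i 0 z + vec (i, true) := by
    rw [refl_add_vec]; simp [flipDir]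
  rw [← h3, hit_refl] at h2
  exact h2

/-- the opposite direction -/
def opp (e : Dir d) : Dir d := (e.1, !e.2)

theorem opp_opp (e : Dir d) : opp (opp e) = e := by simp [opp]

theorem vec_opp (e : Dir d) : vec (opp e) = - vec e := by
  obtain ⟨j, b⟩ := e
  unfold vec opp
  cases b <;> simp [← Pi.single_neg]

theorem lap_eq (f : V d → ℝ) (x : V d) : lap f x = ∑ e : Dir d, (f x - f (x + vec e)) := by
  unfold lap
  rw [sum_sub_distrib, ← card_dir, sum_mul]
  simp

theorem sum_inner (B : Finset (V d)) (f : V d → ℝ) :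
    ∑ p ∈ (B ×ˢ (univ : Finset (Dir d))).filter (fun p => p.1 + vec p.2 ∈ B),
      (f p.1 - f (p.1 + vec p.2)) = 0 := by
  set P := (B ×ˢ (univ : Finset (Dir d))).filter (fun p => p.1 + vec p.2 ∈ B) with hP
  have h : ∑ p ∈ P, (f p.1 - f (p.1 + vec p.2)) =
      ∑ p ∈ P, -(f p.1 - f (p.1 + vec p.2)) := by
    refine sum_nbij' (fun p => (p.1 + vec p.2, opp p.2)) (fun p => (p.1 + vec p.2, opp p.2))
      ?_ ?_ ?_ ?_ ?_
    · intro p hp
      simp only [hP, mem_filter, mem_product, mem_univ, and_true] at hp ⊢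
      refine ⟨hp.2, ?_⟩
      rw [vec_opp, add_neg_cancel_right]
      exact hp.1
    · intro p hp
      simp only [hP, mem_filter, mem_product, mem_univ, and_true] at hp ⊢
      refine ⟨hp.2, ?_⟩
      rw [vec_opp, add_neg_cancel_right]
      exact hp.1
    · intro p _
      simp [vec_opp, opp_opp]
    · intro p _
      simp [vec_opp, opp_opp]
    · intro p _
      simp [vec_opp]
  rw [sum_neg_distrib] at h
  linarith

theorem sum_flux_le (hd : 3 ≤ d) {i : Fin d} {c : ℤ} (hc : 0 ≤ c) (T : Finset (V d))
    (hT : ∀ z ∈ T, z i = c) : ∑ z ∈ T, (hit z - hit (z + vec (i, true))) ≤ flux d := by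
  classical
  have hd0 : 0 < d := by omega
  obtain ⟨N, hN⟩ : ∃ N : ℤ, 0 ≤ N ∧ ∀ z ∈ T, ∀ l, |z l| ≤ N := by
    refine ⟨∑ z ∈ T, ∑ l, |z l|, sum_nonneg fun _ _ => sum_nonneg fun _ _ => abs_nonneg _, ?_⟩
    intro z hz l
    calc |z l| ≤ ∑ l, |z l| := single_le_sum (f := fun l => |z l|) (fun _ _ => abs_nonneg _)
          (mem_univ l)
      _ ≤ _ := single_le_sum (f := fun z : V d => ∑ l, |z l|)
          (fun _ _ => sum_nonneg fun _ _ => abs_nonneg _) hz
  set n : Fin d → ℤ := fun l => if l = i then c else N with hn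
  have hn0 : ∀ l, 0 ≤ n l := fun l => by
    simp only [hn]; split_ifs
    · exact hc
    · exact hN.1
  set B : Finset (V d) := Fintype.piFinset (fun l => Icc (-(n l)) (n l)) with hB
  have hmemB : ∀ z : V d, z ∈ B ↔ ∀ l, -(n l) ≤ z l ∧ z l ≤ n l := by
    intro z; simp [hB, Fintype.mem_piFinset]
  have hTB : T ⊆ B := by
    intro z hz
    rw [hmemB]
    intro l
    by_cases hl : l = i
    · subst hl
      rw [hT z hz]
      simp [hn]; omega
    · have := abs_le.1 (hN.2 z hz l)
      simpa [hn, hl] using this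
  have h1 : ∑ z ∈ B, lap hit z ≤ flux d := by
    calc ∑ z ∈ B, lap hit z = ∑ z ∈ B, if z = 0 then flux d else 0 :=
          sum_congr rfl fun z _ => lap_hit hd0 z
      _ ≤ flux d := by
          rw [sum_ite_eq' B 0]
          split_ifs
          · exact le_rfl
          · exact flux_nonneg hd0
  set F : V d × Dir d → ℝ := fun p => hit p.1 - hit (p.1 + vec p.2) with hF
  have h2 : ∑ z ∈ B, lap hit z = ∑ p ∈ B ×ˢ (univ : Finset (Dir d)), F p := by
    rw [sum_product]
    exact sum_congr rfl fun z _ => lap_eq hit z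
  have h3 := sum_filter_add_sum_filter_not (B ×ˢ (univ : Finset (Dir d)))
    (fun p => p.1 + vec p.2 ∈ B) F
  have h4 : ∑ p ∈ (B ×ˢ (univ : Finset (Dir d))).filter (fun p => p.1 + vec p.2 ∈ B), F p = 0 :=
    sum_inner B hit
  have h5 : ∑ z ∈ T, (hit z - hit (z + vec (i, true))) =
      ∑ p ∈ T.image (fun z => (z, (i, true))), F p := by
    rw [sum_image]
    intro a _ b _ hab
    exact congrArg Prod.fst hab
  have h6 : ∑ p ∈ T.image (fun z => (z, (i, true))), F p ≤
      ∑ p ∈ (B ×ˢ (univ : Finset (Dir d))).filter (fun p => ¬ p.1 + vec p.2 ∈ B), F p := by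
    refine sum_le_sum_of_subset_of_nonneg ?_ ?_
    · intro p hp
      rw [mem_image] at hp
      obtain ⟨z, hz, rfl⟩ := hp
      simp only [mem_filter, mem_product, mem_univ, and_true]
      refine ⟨hTB hz, fun h => ?_⟩
      have h7 := ((hmemB _).1 h i).2
      simp only [hn, if_true] at h7
      simp [vec, hT z hz] at h7
    · rintro ⟨z, j, b⟩ hp _
      simp only [mem_filter, mem_product, mem_univ, and_true] at hp
      obtain ⟨hz, hz'⟩ := hp
      rw [hmemB] at hz hz'
      push Not at hz'
      obtain ⟨l, hl⟩ := hz'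
      have hlj : l = j := by
        by_contra hne
        have h8 : (z + vec (j, b)) l = z l := by simp [vec, hne]
        rw [h8] at hl
        have := hl (hz l).1
        have := (hz l).2
        omega
      subst hlj
      have hz1 := hz l
      have := hn0 l
      simp only [hF]
      cases b
      · have h9 : (z + vec (l, false)) l = z l - 1 := by simp [vec]; ring
        rw [h9] at hl
        have h10 : z l ≤ 0 := by
          by_contra hcon
          have := hl (by omega)
          omega
        exact sub_nonneg.2 (hit_mono' hd h10)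
      · have h9 : (z + vec (l, true)) l = z l + 1 := by simp [vec]
        rw [h9] at hl
        have h10 : 0 ≤ z l := by
          have := hl (by omega)
          omega
        exact sub_nonneg.2 (hit_mono hd h10)
  rw [h5]
  linarith

end

end Pool.Agent.H282R3.RW
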