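import Pool.Agent.H282R3.RW.Barrier

/-!
# The probability that the simple random walk hits the origin
-/

namespace Pool.Agent.H282R3.RW

open MeasureTheory Filter Topology Finset

noncomputable section

variable {d : ℕ}

/-- probability to hit the origin within `N` steps -/
def hitN : ℕ → V d → ℝ
  | 0, x => if x = 0 then 1 else 0
  | N + 1, x => if x = 0 then 1 else (∑ e : Dir d, hitN N (x + vec e)) / (2 * d)

theorem hitN_zero (N : ℕ) : hitN N (0 : V d) = 1 := by
  cases N <;> simp [hitN]

theorem hitN_succ {x : V d} (hx : x ≠ 0) (N : ℕ) :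
    hitN (N + 1) x = (∑ e : Dir d, hitN N (x + vec e)) / (2 * d) := by
  simp [hitN, hx]

theorem hitN_nonneg (N : ℕ) : ∀ x : V d, 0 ≤ hitN N x := by
  induction N with
  | zero => intro x; unfold hitN; split_ifs <;> norm_num
  | succ N ih =>
    intro x
    unfold hitN
    split_ifs
    · norm_num
    · exact div_nonneg (sum_nonneg fun e _ => ih _) (by positivity)

theorem hitN_mono_succ (N : ℕ) : ∀ x : V d, hitN N x ≤ hitN (N + 1) x := by
  induction N with
  | zero =>
    intro x
    by_cases hx : x = 0
    · subst hx; rw [hitN_zero, hitN_zero]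
    · have : hitN 0 x = 0 := by simp [hitN, hx]
      rw [this]
      exact hitN_nonneg _ _
  | succ N ih =>
    intro x
    by_cases hx : x = 0
    · subst hx; rw [hitN_zero, hitN_zero]
    · rw [hitN_succ hx, hitN_succ hx]
      gcongr with e
      exact ih _

theorem hitN_mono (x : V d) : Monotone fun N => hitN N x :=
  monotone_nat_of_le_succ fun N => hitN_mono_succ N x

theorem card_dir : ∑ _e : Dir d, (1 : ℝ) = 2 * d := by
  simp [mul_comm]

theorem hitN_le_super {g : V d → ℝ} (hg : ∀ x, 0 ≤ g x) (h0 : 1 ≤ g 0)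
    (hs : ∀ x, ∑ e : Dir d, g (x + vec e) ≤ 2 * d * g x) (hd : 0 < d) (N : ℕ) :
    ∀ x, hitN N x ≤ g x := by
  induction N with
  | zero =>
    intro x
    unfold hitN
    split_ifs with hx
    · subst hx; exact h0
    · exact hg x
  | succ N ih =>
    intro x
    by_cases hx : x = 0
    · subst hx; rw [hitN_zero]; exact h0
    · rw [hitN_succ hx, div_le_iff₀ (by positivity)]
      calc ∑ e : Dir d, hitN N (x + vec e) ≤ ∑ e : Dir d, g (x + vec e) :=
            sum_le_sum fun e _ => ih _
        _ ≤ 2 * d * g x := hs x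
        _ = g x * (2 * d) := by ring

theorem hitN_le_one (hd : 0 < d) (N : ℕ) (x : V d) : hitN N x ≤ 1 := by
  refine hitN_le_super (g := fun _ => 1) (fun _ => by norm_num) le_rfl (fun x => ?_) hd N x
  rw [card_dir]; simp

/-- the probability to hit the origin -/
def hit (x : V d) : ℝ := ⨆ N, hitN N x

theorem tendsto_hitN (hd : 0 < d) (x : V d) :
    Tendsto (fun N => hitN N x) atTop (𝓝 (hit x)) :=
  tendsto_atTop_ciSup (hitN_mono x) ⟨1, by rintro _ ⟨N, rfl⟩; exact hitN_le_one hd N x⟩

theorem hit_zero : hit (0 : V d) = 1 := by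
  unfold hit
  simp [hitN_zero]

theorem hit_nonneg (hd : 0 < d) (x : V d) : 0 ≤ hit x :=
  ge_of_tendsto' (tendsto_hitN hd x) fun N => hitN_nonneg N x

theorem hit_le_one (hd : 0 < d) (x : V d) : hit x ≤ 1 :=
  le_of_tendsto' (tendsto_hitN hd x) fun N => hitN_le_one hd N x

theorem hit_harm (hd : 0 < d) {x : V d} (hx : x ≠ 0) :
    ∑ e : Dir d, hit (x + vec e) = 2 * d * hit x := by
  have h1 : Tendsto (fun N => hitN (N + 1) x) atTop (𝓝 (hit x)) :=
    (tendsto_add_atTop_iff_nat 1).2 (tendsto_hitN hd x)
  have h2 : Tendsto (fun N => (∑ e : Dir d, hitN N (x + vec e)) / (2 * d)) atTop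
      (𝓝 ((∑ e : Dir d, hit (x + vec e)) / (2 * d))) :=
    (tendsto_finset_sum _ fun e _ => tendsto_hitN hd _).div_const _
  have h3 : (fun N => hitN (N + 1) x) = fun N => (∑ e : Dir d, hitN N (x + vec e)) / (2 * d) :=
    funext fun N => hitN_succ hx N
  rw [h3] at h1
  have h4 := tendsto_nhds_unique h2 h1
  have hd' : (0 : ℝ) < 2 * d := by positivity
  rw [← h4, mul_div_cancel₀ _ hd'.ne']

theorem hit_le_bar (hd : 3 ≤ d) (x : V d) : hit x ≤ bar x / bar (0 : V d) := by
  have hb := bar_pos (0 : V d)
  refine le_of_tendsto' (tendsto_hitN (by omega) x) fun N => ?_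
  refine hitN_le_super (g := fun x => bar x / bar (0 : V d))
    (fun x => div_nonneg (bar_pos x).le hb.le) ?_ (fun x => ?_) (by omega) N x
  · exact (div_self hb.ne').ge
  · have h := div_le_div_of_nonneg_right (bar_super hd x) hb.le
    rw [sum_div, mul_div_assoc] at h
    exact h

theorem tendsto_hit (hd : 3 ≤ d) : Tendsto (hit : V d → ℝ) cofinite (𝓝 0) := by
  have h1 : Tendsto (fun x : V d => bar x / bar (0 : V d)) cofinite (𝓝 (0 / bar (0 : V d))) :=
    tendsto_bar.div_const _
  rw [zero_div] at h1
  exact squeeze_zero (fun x => hit_nonneg (by omega) x) (fun x => hit_le_bar hd x) h1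

/-- reflection of the coordinate `i` in the point `c / 2` -/
def refl (i : Fin d) (c : ℤ) (x : V d) : V d := Function.update x i (c - x i)

theorem refl_refl (i : Fin d) (c : ℤ) (x : V d) : refl i c (refl i c x) = x := by
  unfold refl
  ext j
  by_cases h : j = i
  · subst h; simp
  · simp [h]

theorem refl_injective (i : Fin d) (c : ℤ) : Function.Injective (refl i c : V d → V d) :=
  fun x y h => by rw [← refl_refl i c x, h, refl_refl]

/-- the reflected direction -/
def flipDir (i : Fin d) (e : Dir d) : Dir d := (e.1, if e.1 = i then !e.2 else e.2)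

theorem flipDir_flipDir (i : Fin d) (e : Dir d) : flipDir i (flipDir i e) = e := by
  obtain ⟨j, b⟩ := e
  unfold flipDir
  by_cases h : j = i <;> simp [h]

theorem refl_add_vec (i : Fin d) (c : ℤ) (x : V d) (e : Dir d) :
    refl i c (x + vec e) = refl i c x + vec (flipDir i e) := by
  obtain ⟨j, b⟩ := e
  unfold refl vec flipDir
  ext k
  by_cases hk : k = i
  · subst hk
    by_cases hj : j = k
    · subst hj
      cases b <;> simp <;> ring
    · simp [hj, Ne.symm hj]
  · by_cases hj : k = j
    · subst hj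
      simp [hk]
    · simp [hk, hj]

theorem sum_flip (i : Fin d) (f : Dir d → ℝ) : ∑ e, f (flipDir i e) = ∑ e, f e :=
  Function.Bijective.sum_comp
    (Function.Involutive.bijective (f := flipDir i) (flipDir_flipDir i)) f

theorem sum_refl (i : Fin d) (c : ℤ) (g : V d → ℝ) (x : V d) :
    ∑ e : Dir d, g (refl i c (x + vec e)) = ∑ e : Dir d, g (refl i c x + vec e) := by
  simp_rw [refl_add_vec]
  exact sum_flip i fun e => g (refl i c x + vec e)

theorem hitN_refl (i : Fin d) (N : ℕ) : ∀ x : V d, hitN N (refl i 0 x) = hitN N x := by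
  have h0 : ∀ x : V d, refl i 0 x = 0 ↔ x = 0 := by
    intro x
    have : refl i 0 (0 : V d) = 0 := by
      unfold refl; ext j; by_cases h : j = i
      · subst h; simp
      · simp [h]
    constructor
    · intro h
      rw [← refl_refl i 0 x, h, this]
    · rintro rfl; exact this
  induction N with
  | zero => intro x; simp [hitN, h0]
  | succ N ih =>
    intro x
    by_cases hx : x = 0
    · subst hx; rw [(h0 0).2 rfl]
    · have hx' : refl i 0 x ≠ 0 := fun h => hx ((h0 x).1 h)
      rw [hitN_succ hx, hitN_succ hx', ← sum_refl]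
      simp_rw [ih]

theorem hit_refl (i : Fin d) (x : V d) : hit (refl i 0 x) = hit x := by
  unfold hit
  simp_rw [hitN_refl]

/-- `2 d` times the escape probability -/
def flux (d : ℕ) : ℝ := 2 * d - ∑ e : Dir d, hit (vec e)

theorem hit_lap (hd : 0 < d) (x : V d) :
    2 * d * hit x - ∑ e : Dir d, hit (x + vec e) = if x = 0 then flux d else 0 := by
  split_ifs with hx
  · subst hx
    rw [hit_zero]
    simp [flux]
  · rw [hit_harm hd hx, sub_self]

theorem flux_nonneg (hd : 0 < d) : 0 ≤ flux d := by
  unfold flux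
  rw [← card_dir, ← sum_sub_distrib]
  exact sum_nonneg fun e _ => sub_nonneg.2 (hit_le_one hd _)

theorem flux_le (hd : 0 < d) : flux d ≤ 2 * d := by
  unfold flux
  have : 0 ≤ ∑ e : Dir d, hit (vec e) := sum_nonneg fun e _ => hit_nonneg hd _
  linarith

end

end Pool.Agent.H282R3.RW
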