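import Pool.Agent.H282R3.RW.Weight

/-!
# The escape rate of the rotor walk with aligned initial rotors
-/

namespace Pool.Agent.H282R3.RW

open Filter Topology Finset

noncomputable section

variable {d : ℕ} {m : V d → Equiv.Perm (Dir d)}

/-- the foot of the column of `x` -/
def foot (v : Fin d) (x : V d) : V d := Function.update x v 0

theorem foot_v (v : Fin d) (x : V d) : foot v x v = 0 := by simp [foot]

theorem foot_add_single (v : Fin d) (x : V d) (n : ℤ) : foot v (x + Pi.single v n) = foot v x := by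
  unfold foot
  ext k
  by_cases hk : k = v
  · subst hk; simp
  · simp [hk]

/-- all the rotors outside the columns of `A` point upwards -/
def Supp (v : Fin d) (A : Finset (V d)) (ρ : V d → Dir d) : Prop :=
  ∀ x, foot v x ∉ A → ρ x = (v, true)

/-- bound for the weights -/
def bd (v : Fin d) (A : Finset (V d)) (x : V d) : ℝ :=
  open Classical in if foot v x ∈ A then 2 * inc x else 0

theorem bd_nonneg (v : Fin d) (A : Finset (V d)) (x : V d) : 0 ≤ bd v A x := by
  unfold bd
  split_ifs
  · exact mul_nonneg (by norm_num) (inc_nonneg x)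
  · exact le_rfl

theorem sum_bd_le (hd : 3 ≤ d) (v : Fin d) (A : Finset (V d)) (T : Finset (V d)) :
    ∑ x ∈ T, bd v A x ≤ 2 * ∑ y ∈ A, colD v y := by
  classical
  have h1 : ∑ x ∈ T, bd v A x = ∑ x ∈ T.filter (fun x => foot v x ∈ A), 2 * inc x := by
    rw [sum_filter]
    refine sum_congr rfl fun x _ => ?_
    unfold bd
    split_ifs <;> rfl
  rw [h1, ← mul_sum]
  refine mul_le_mul_of_nonneg_left ?_ (by norm_num)
  rw [← sum_fiberwise_of_maps_to (s := T.filter (fun x => foot v x ∈ A)) (t := A)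
    (g := fun x => foot v x) (fun x hx => (mem_filter.1 hx).2)]
  refine sum_le_sum fun y _ => ?_
  set S := (T.filter (fun x => foot v x ∈ A)).filter (fun x => foot v x = y) with hS
  have hx : ∀ x ∈ S, x = Function.update y v (x v) := by
    intro x hx
    have : foot v x = y := (mem_filter.1 hx).2
    rw [← this]
    unfold foot
    simp
  have hinj : Set.InjOn (fun x : V d => x v) (S : Set (V d)) := by
    intro a ha b hb hab
    rw [hx a ha, hx b hb]
    simp only at hab
    rw [hab]
  calc ∑ x ∈ S, inc x = ∑ x ∈ S, inc (Function.update y v (x v)) :=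
        sum_congr rfl fun x hxS => by rw [← hx x hxS]
    _ = ∑ t ∈ S.image (fun x : V d => x v), inc (Function.update y v t) := by
        rw [sum_image hinj]
    _ ≤ colD v y := (summable_inc hd v y).sum_le_tsum _ fun _ _ => inc_nonneg _

theorem summable_bd (hd : 3 ≤ d) (v : Fin d) (A : Finset (V d)) : Summable (bd v A) :=
  summable_of_sum_le (bd_nonneg v A) (sum_bd_le hd v A)

theorem tsum_bd_le (hd : 3 ≤ d) (v : Fin d) (A : Finset (V d)) :
    ∑' x, bd v A x ≤ 2 * ∑ y ∈ A, colD v y :=
  (summable_bd hd v A).tsum_le_of_sum_le (sum_bd_le hd v A)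

section potential

variable {v : Fin d} {w : V d → Dir d → ℝ}

theorem abs_w_le (h0 : ∀ x, w x (v, true) = 0) (hb : ∀ x e, |w x e| ≤ 2 * inc x)
    {A : Finset (V d)} {ρ : V d → Dir d} (hρ : Supp v A ρ) (x : V d) :
    |w x (ρ x)| ≤ bd v A x := by
  unfold bd
  split_ifs with h
  · exact hb _ _
  · rw [hρ x h, h0, abs_zero]

/-- total weight -/
def totW (w : V d → Dir d → ℝ) (ρ : V d → Dir d) : ℝ := ∑' x, w x (ρ x)

theorem summable_w (hd : 3 ≤ d) (h0 : ∀ x, w x (v, true) = 0) (hb : ∀ x e, |w x e| ≤ 2 * inc x)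
    {A : Finset (V d)} {ρ : V d → Dir d} (hρ : Supp v A ρ) : Summable fun x => w x (ρ x) :=
  Summable.of_norm_bounded (summable_bd hd v A) fun x => by
    rw [Real.norm_eq_abs]; exact abs_w_le h0 hb hρ x

theorem abs_totW_le (hd : 3 ≤ d) (h0 : ∀ x, w x (v, true) = 0)
    (hb : ∀ x e, |w x e| ≤ 2 * inc x) {A : Finset (V d)} {ρ : V d → Dir d} (hρ : Supp v A ρ) :
    |totW w ρ| ≤ 2 * ∑ y ∈ A, colD v y := by
  have hs := summable_w hd h0 hb hρ
  have h1 : ‖∑' x, w x (ρ x)‖ ≤ ∑' x, bd v A x :=
    tsum_of_norm_bounded (summable_bd hd v A).hasSum fun x => by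
      rw [Real.norm_eq_abs]; exact abs_w_le h0 hb hρ x
  exact (Real.norm_eq_abs _ ▸ h1).trans (tsum_bd_le hd v A)

theorem supp_mono {A B : Finset (V d)} (hAB : A ⊆ B) {ρ : V d → Dir d} (h : Supp v A ρ) :
    Supp v B ρ := fun x hx => h x fun hxA => hx (hAB hxA)

theorem supp_update {A : Finset (V d)} {ρ : V d → Dir d} (h : Supp v A ρ) {x : V d}
    (hx : foot v x ∈ A) (e : Dir d) : Supp v A (Function.update ρ x e) := by
  intro y hy
  rw [Function.update_of_ne]
  · exact h y hy
  · rintro rfl; exact hy hx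

theorem totW_update (hd : 3 ≤ d) (h0 : ∀ x, w x (v, true) = 0)
    (hb : ∀ x e, |w x e| ≤ 2 * inc x) {A : Finset (V d)} {ρ : V d → Dir d} (hρ : Supp v A ρ)
    (x : V d) (e : Dir d) :
    totW w (Function.update ρ x e) = totW w ρ + (w x e - w x (ρ x)) := by
  classical
  have hρ' : Supp v (insert (foot v x) A) (Function.update ρ x e) :=
    supp_update (supp_mono (subset_insert _ _) hρ) (mem_insert_self _ _) e
  have hs := summable_w hd h0 hb hρ
  have hs' := summable_w hd h0 hb hρ'
  have h1 : totW w (Function.update ρ x e) - totW w ρ =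
      ∑' y, (w y (Function.update ρ x e y) - w y (ρ y)) := (hs'.tsum_sub hs).symm
  rw [tsum_eq_single x] at h1
  · rw [Function.update_self] at h1
    linarith
  · intro y hy
    rw [Function.update_of_ne hy, sub_self]

variable [NeZero d]

theorem pot_step (hd : 3 ≤ d) (h0 : ∀ x, w x (v, true) = 0)
    (hw : ∀ x e, w x (m x e) - w x e = avg x - hit (x + vec e))
    (hb : ∀ x e, |w x e| ≤ 2 * inc x) {A : Finset (V d)} {s : V d × (V d → Dir d)}
    (hρ : Supp v A s.2) :
    hit (step m s).1 + totW w (step m s).2 =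
      hit s.1 + totW w s.2 - if s.1 = 0 then escapeProb d else 0 := by
  rw [step_fst, step_snd, totW_update hd h0 hb hρ, hw, avg_eq]
  ring

theorem pot_walk (hd : 3 ≤ d) (h0 : ∀ x, w x (v, true) = 0)
    (hw : ∀ x e, w x (m x e) - w x e = avg x - hit (x + vec e))
    (hb : ∀ x e, |w x e| ≤ 2 * inc x) {A : Finset (V d)} {ρ : V d → Dir d} (n : ℕ)
    (hρ : ∀ k ≤ n, Supp v A (walk m ρ k).2) (hne : ∀ k, 1 ≤ k → k ≤ n → (walk m ρ k).1 ≠ 0) :
    hit (walk m ρ (n + 1)).1 + totW w (walk m ρ (n + 1)).2 = 1 + totW w ρ - escapeProb d := by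
  induction n with
  | zero =>
    rw [walk_succ, pot_step hd h0 hw hb (hρ 0 le_rfl), walk_zero]
    simp [hit_zero]
  | succ n ih =>
    rw [walk_succ, pot_step hd h0 hw hb (hρ (n + 1) le_rfl),
      if_neg (hne (n + 1) (by omega) le_rfl), sub_zero]
    exact ih (fun k hk => hρ k (by omega)) fun k h1 h2 => hne k h1 (by omega)

end potential

section columns

variable {v : Fin d}

/-- as long as the particle stays in the columns of `A` -/
theorem supp_walk {A : Finset (V d)} {ρ : V d → Dir d} (hρ : Supp v A ρ) (n : ℕ)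
    (h : ∀ k < n, foot v (walk m ρ k).1 ∈ A) : Supp v A (walk m ρ n).2 := by
  induction n with
  | zero => exact hρ
  | succ n ih =>
    rw [walk_succ, step_snd]
    exact supp_update (ih fun k hk => h k (by omega)) (h n (by omega)) _

/-- entering a new column -/
theorem new_column {A : Finset (V d)} {ρ : V d → Dir d} (hρ : Supp v A ρ) {k : ℕ}
    (h : ∀ j < k, foot v (walk m ρ j).1 ∈ A) (hk : foot v (walk m ρ k).1 ∉ A) (j : ℕ) :
    (walk m ρ (k + j)).1 = (walk m ρ k).1 + Pi.single v (j : ℤ) := by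
  rw [walk_add]
  refine (go_up v (walk m ρ k) (fun j => ?_) j).1
  refine supp_walk hρ k h _ ?_
  rw [foot_add_single]
  exact hk

theorem new_column_escapes {A : Finset (V d)} {ρ : V d → Dir d} (hρ : Supp v A ρ) {k : ℕ}
    (h : ∀ j < k, foot v (walk m ρ j).1 ∈ A) (hk : foot v (walk m ρ k).1 ∉ A) (j : ℕ)
    (hj : 1 ≤ k + j) : (walk m ρ (k + j)).1 ≠ 0 := by
  rw [new_column hρ h hk j]
  intro h0
  rcases Nat.eq_zero_or_pos k with hk0 | hk0
  · subst hk0
    rw [walk_zero] at h0
    have := congrFun h0 v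
    simp at this
    omega
  · have h1 := h 0 hk0
    rw [walk_zero] at h1
    have h2 : foot v ((walk m ρ k).1 + Pi.single v (j : ℤ)) = foot v (walk m ρ k).1 :=
      foot_add_single _ _ _
    rw [h0] at h2
    rw [← h2] at hk
    exact hk h1

variable [NeZero d]

theorem after_supp_returns {A : Finset (V d)} {ρ : V d → Dir d} (hρ : Supp v A ρ)
    (hR : Returns m ρ) : ∃ T, 1 ≤ T ∧ (walk m ρ T).1 = 0 ∧ (∀ k, 1 ≤ k → k < T →
      (walk m ρ k).1 ≠ 0) ∧ after m ρ = (walk m ρ T).2 ∧ ∀ k ≤ T, Supp v A (walk m ρ k).2 := by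
  classical
  refine ⟨Nat.find hR, (Nat.find_spec hR).1, (Nat.find_spec hR).2, ?_, ?_, ?_⟩
  · intro k h1 h2 h3
    exact Nat.find_min hR h2 ⟨h1, h3⟩
  · convert after_returns hR
  · set T := Nat.find hR with hT
    have hall : ∀ k < T, foot v (walk m ρ k).1 ∈ A := by
      intro k
      induction k using Nat.strong_induction_on with
      | _ k ih =>
        intro hkT
        by_contra hkA
        have h1 := new_column_escapes hρ (fun j hj => ih j hj (by omega)) hkA (T - k) (by omega)
        rw [Nat.add_sub_cancel' hkT.le] at h1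
        exact h1 (Nat.find_spec hR).2
    intro k hk
    exact supp_walk hρ k fun j hj => hall j (by omega)

theorem after_supp_escapes {A : Finset (V d)} {ρ : V d → Dir d} (hρ : Supp v A ρ) :
    ∃ A' : Finset (V d), A'.card ≤ A.card + 1 ∧ (∀ y ∈ A', y v = 0 ∨ y ∈ A) ∧
      ∀ k, Supp v A' (walk m ρ k).2 := by
  classical
  by_cases hall : ∀ k, foot v (walk m ρ k).1 ∈ A
  · exact ⟨A, by omega, fun y hy => Or.inr hy, fun k => supp_walk hρ k fun j _ => hall j⟩
  · push Not at hall
    set k := Nat.find hall with hk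
    have hkA : foot v (walk m ρ k).1 ∉ A := Nat.find_spec hall
    have hkmin : ∀ j < k, foot v (walk m ρ j).1 ∈ A := fun j hj => by
      by_contra hne
      exact Nat.find_min hall hj hne
    refine ⟨insert (foot v (walk m ρ k).1) A, card_insert_le _ _, ?_, ?_⟩
    · intro y hy
      rcases mem_insert.1 hy with rfl | h
      · exact Or.inl (foot_v _ _)
      · exact Or.inr h
    · intro n
      refine supp_walk (supp_mono (subset_insert _ _) hρ) n fun j _ => ?_
      rcases lt_or_ge j k with h | h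
      · exact mem_insert_of_mem (hkmin j h)
      · obtain ⟨i, rfl⟩ := Nat.exists_eq_add_of_le h
        rw [new_column hρ hkmin hkA, foot_add_single]
        exact mem_insert_self _ _

end columns

section main

variable [NeZero d] {v : Fin d} {w : V d → Dir d → ℝ}

theorem after_escapes (hm : IsMechanism m) (hd : 3 ≤ d) (h0 : ∀ x, w x (v, true) = 0)
    (hw : ∀ x e, w x (m x e) - w x e = avg x - hit (x + vec e))
    (hb : ∀ x e, |w x e| ≤ 2 * inc x) {A : Finset (V d)} {ρ : V d → Dir d} (hρ : Supp v A ρ)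
    (hE : Escapes m ρ) :
    ∃ A' : Finset (V d), A'.card ≤ A.card + 1 ∧ (∀ y ∈ A', y v = 0 ∨ y ∈ A) ∧
      Supp v A' (after m ρ) ∧ totW w (after m ρ) = totW w ρ + 1 - escapeProb d := by
  obtain ⟨A', h1, h2, h3⟩ := after_supp_escapes (m := m) hρ
  refine ⟨A', h1, h2, ?_, ?_⟩
  · intro x hx
    obtain ⟨k, hk⟩ := (after_spec hm hE x).exists
    rw [← hk]
    exact h3 k x hx
  · have hne : ∀ k, 1 ≤ k → (walk m ρ k).1 ≠ 0 := fun k hk h => hE ⟨k, hk, h⟩
    have t1 : Tendsto (fun n => hit (walk m ρ (n + 1)).1) atTop (𝓝 0) :=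
      ((tendsto_hit hd).comp (tendsto_walk hm hE)).comp (tendsto_add_atTop_nat 1)
    have t2 : Tendsto (fun n => totW w (walk m ρ (n + 1)).2) atTop (𝓝 (totW w (after m ρ))) := by
      unfold totW
      refine tendsto_tsum_of_dominated_convergence (bound := bd v A') (summable_bd hd v A') ?_ ?_
      · intro x
        refine tendsto_const_nhds.congr' ?_
        filter_upwards [(tendsto_add_atTop_nat 1).eventually (after_spec hm hE x)] with n hn
        rw [hn]
      · refine Eventually.of_forall fun n x => ?_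
        rw [Real.norm_eq_abs]
        exact abs_w_le h0 hb (h3 _) x
    have t3 : Tendsto (fun n => hit (walk m ρ (n + 1)).1 + totW w (walk m ρ (n + 1)).2) atTop
        (𝓝 (1 + totW w ρ - escapeProb d)) := by
      refine tendsto_const_nhds.congr fun n => ?_
      exact (pot_walk hd h0 hw hb n (fun k _ => h3 k) fun k hk _ => hne k hk).symm
    have t4 := tendsto_nhds_unique (t1.add t2) t3
    linarith

theorem after_returns' (hd : 3 ≤ d) (h0 : ∀ x, w x (v, true) = 0)
    (hw : ∀ x e, w x (m x e) - w x e = avg x - hit (x + vec e))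
    (hb : ∀ x e, |w x e| ≤ 2 * inc x) {A : Finset (V d)} {ρ : V d → Dir d} (hρ : Supp v A ρ)
    (hR : Returns m ρ) :
    Supp v A (after m ρ) ∧ totW w (after m ρ) = totW w ρ - escapeProb d := by
  obtain ⟨T, hT1, hT0, hTne, haft, hsupp⟩ := after_supp_returns hρ hR
  rw [haft]
  refine ⟨hsupp T le_rfl, ?_⟩
  obtain ⟨n, rfl⟩ : ∃ n, T = n + 1 := ⟨T - 1, by omega⟩
  have := pot_walk hd h0 hw hb n (fun k hk => hsupp k (by omega))
    fun k h1 h2 => hTne k h1 (by omega)
  rw [hT0, hit_zero] at this
  linarith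

/-- the configuration with all rotors in the direction `e_v` -/
def aligned (v : Fin d) : V d → Dir d := fun _ => (v, true)

theorem escapeCount_succ (ρ : V d → Dir d) (n : ℕ) :
    (Escapes m (conf m ρ n) → escapeCount m ρ (n + 1) = escapeCount m ρ n + 1) ∧
    (Returns m (conf m ρ n) → escapeCount m ρ (n + 1) = escapeCount m ρ n) := by
  classical
  unfold escapeCount
  rw [range_add_one, filter_insert]
  constructor
  · intro h
    rw [if_pos h, card_insert_of_notMem]
    simp
  · intro h
    rw [if_neg]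
    exact fun hE => hE h

theorem main_invariant (hm : IsMechanism m) (hd : 3 ≤ d) (h0 : ∀ x, w x (v, true) = 0)
    (hw : ∀ x e, w x (m x e) - w x e = avg x - hit (x + vec e))
    (hb : ∀ x e, |w x e| ≤ 2 * inc x) (n : ℕ) :
    ∃ A : Finset (V d), A.card ≤ escapeCount m (aligned v) n ∧ (∀ y ∈ A, y v = 0) ∧
      Supp v A (conf m (aligned v) n) ∧
      totW w (conf m (aligned v) n) = escapeCount m (aligned v) n - n * escapeProb d := by
  induction n with
  | zero =>
    refine ⟨∅, by simp, by simp, fun x _ => rfl, ?_⟩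
    have h1 : conf m (aligned v) 0 = aligned v := rfl
    rw [h1]
    unfold totW aligned
    simp [h0, escapeCount]
  | succ n ih =>
    obtain ⟨A, hA1, hA2, hA3, hA4⟩ := ih
    have hconf : conf m (aligned v) (n + 1) = after m (conf m (aligned v) n) := rfl
    rw [hconf]
    obtain ⟨hs1, hs2⟩ := escapeCount_succ (m := m) (aligned v) n
    by_cases hR : Returns m (conf m (aligned v) n)
    · obtain ⟨h1, h2⟩ := after_returns' hd h0 hw hb hA3 hR
      refine ⟨A, by rw [hs2 hR]; exact hA1, hA2, h1, ?_⟩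
      rw [h2, hA4, hs2 hR]
      push_cast
      ring
    · obtain ⟨A', h1, h2, h3, h4⟩ := after_escapes hm hd h0 hw hb hA3 hR
      refine ⟨A', by rw [hs1 hR]; omega, fun y hy => ?_, h3, ?_⟩
      · rcases h2 y hy with h | h
        · exact h
        · exact hA2 y h
      · rw [h4, hA4, hs1 hR]
        push_cast
        ring

theorem escapeCount_le (ρ : V d → Dir d) (n : ℕ) : escapeCount m ρ n ≤ n := by
  classical
  unfold escapeCount
  refine (card_filter_le _ _).trans ?_
  rw [card_range]

/-- the total increment over `n` columns is `o(n)` -/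
theorem sum_colD_le (hd : 3 ≤ d) (v : Fin d) {ε : ℝ} (hε : 0 < ε) :
    ∃ C, ∀ A : Finset (V d), (∀ y ∈ A, y v = 0) → ∑ y ∈ A, colD v y ≤ ε * A.card + C := by
  classical
  have hfin := finite_colD hd v hε
  refine ⟨∑ y ∈ hfin.toFinset, colD v y, fun A hA => ?_⟩
  rw [← sum_filter_add_sum_filter_not A (fun y => ε ≤ colD v y), add_comm]
  refine add_le_add ?_ ?_
  · calc ∑ y ∈ A.filter (fun y => ¬ ε ≤ colD v y), colD v y
        ≤ ∑ _y ∈ A.filter (fun y => ¬ ε ≤ colD v y), ε :=
          sum_le_sum fun y hy => (not_le.1 (mem_filter.1 hy).2).le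
      _ = ε * (A.filter (fun y => ¬ ε ≤ colD v y)).card := by
          rw [sum_const, nsmul_eq_mul, mul_comm]
      _ ≤ ε * A.card := by
          refine mul_le_mul_of_nonneg_left ?_ hε.le
          exact_mod_cast card_filter_le _ _
  · refine sum_le_sum_of_subset_of_nonneg ?_ fun _ _ _ => colD_nonneg v _
    intro y hy
    rw [mem_filter] at hy
    rw [Set.Finite.mem_toFinset]
    exact ⟨hA y hy.1, hy.2⟩

theorem tendsto_escapeCount (hm : IsMechanism m) (hd : 3 ≤ d) (v : Fin d) :
    Tendsto (fun n : ℕ => (escapeCount m (aligned v) n : ℝ) / n) atTop (𝓝 (escapeProb d)) := by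
  obtain ⟨w, h0, hw, hb⟩ := exists_weights hm (by omega) v
  rw [Metric.tendsto_atTop]
  intro ε hε
  obtain ⟨C, hC⟩ := sum_colD_le hd v (ε := ε / 4) (by positivity)
  obtain ⟨N, hN⟩ := exists_nat_gt (4 * C / ε)
  refine ⟨N + 1, fun n hn => ?_⟩
  have hn0 : (0 : ℝ) < n := by
    have : 0 < n := by omega
    exact_mod_cast this
  obtain ⟨A, hA1, hA2, hA3, hA4⟩ := main_invariant hm hd h0 hw hb n
  have h1 := abs_totW_le hd h0 hb hA3
  rw [hA4] at h1
  have h2 := hC A hA2
  have h3 : (A.card : ℝ) ≤ n := by exact_mod_cast hA1.trans (escapeCount_le _ _)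
  have h4 : |(escapeCount m (aligned v) n : ℝ) - n * escapeProb d| ≤ 2 * (ε / 4 * n + C) := by
    refine h1.trans ?_
    have : ε / 4 * (A.card : ℝ) ≤ ε / 4 * n := mul_le_mul_of_nonneg_left h3 (by positivity)
    linarith
  have h5 : 4 * C < ε * n := by
    rw [div_lt_iff₀ hε] at hN
    have : (N : ℝ) ≤ n := by exact_mod_cast (by omega : N ≤ n)
    nlinarith
  rw [Real.dist_eq]
  have h6 : (escapeCount m (aligned v) n : ℝ) / n - escapeProb d =
      ((escapeCount m (aligned v) n : ℝ) - n * escapeProb d) / n := by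
    field_simp
  rw [h6, abs_div, abs_of_pos hn0, div_lt_iff₀ hn0]
  refine lt_of_le_of_lt h4 ?_
  linarith

end main

end

end Pool.Agent.H282R3.RW
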