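import Pool.Agent.H282R3.RW.Hit

/-!
# Monotonicity of the hitting probability
-/

namespace Pool.Agent.H282R3.RW

open MeasureTheory Filter Topology Finset

noncomputable section

variable {d : ℕ}

theorem min_principle (u : V d → ℝ) (Ω : Set (V d)) (i : Fin d)
    (hu : Tendsto u cofinite (𝓝 0))
    (hsup : ∀ z ∈ Ω, ∑ e : Dir d, u (z + vec e) ≤ 2 * d * u z)
    (hb : ∀ z ∈ Ω, ∀ e : Dir d, z + vec e ∈ Ω ∨ u (z + vec e) = - u z) :
    ∀ z ∈ Ω, 0 ≤ u z := by
  intro z0 hz0
  by_contra hneg
  push Not at hneg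
  have hfin : ∀ a < 0, {z | z ∈ Ω ∧ u z ≤ a}.Finite := by
    intro a ha
    have h1 : ∀ᶠ z in cofinite, a < u z := hu.eventually (lt_mem_nhds ha)
    rw [eventually_cofinite] at h1
    refine h1.subset ?_
    rintro z ⟨_, hz⟩
    simpa using hz
  obtain ⟨z1, ⟨hz1, hz1'⟩, hmin1⟩ := Set.exists_min_image _ u (hfin _ hneg) ⟨z0, hz0, le_rfl⟩
  have hz1neg : u z1 < 0 := lt_of_le_of_lt hz1' hneg
  obtain ⟨z2, ⟨hz2, hz2'⟩, hmax⟩ := Set.exists_max_image _ (fun z => z i) (hfin _ hz1neg)
    ⟨z1, hz1, le_rfl⟩
  have hmin : ∀ z ∈ Ω, u z2 ≤ u z := by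
    intro z hz
    by_cases h : u z ≤ u z0
    · exact hz2'.trans (hmin1 z ⟨hz, h⟩)
    · push Not at h
      exact hz2'.trans (hz1'.trans h.le)
  have hz2neg : u z2 < 0 := lt_of_le_of_lt hz2' hz1neg
  have hle : ∀ e : Dir d, u z2 ≤ u (z2 + vec e) := by
    intro e
    rcases hb z2 hz2 e with h | h
    · exact hmin _ h
    · rw [h]; linarith
  have hlt : u z2 < u (z2 + vec (i, true)) := by
    rcases hb z2 hz2 (i, true) with h | h
    · refine lt_of_le_of_ne (hmin _ h) fun heq => ?_
      have h3 := hmax _ ⟨h, by rw [← heq]; exact hz2'⟩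
      simp [vec] at h3
    · rw [h]; linarith
  have hsum : ∑ _e : Dir d, u z2 < ∑ e : Dir d, u (z2 + vec e) :=
    sum_lt_sum (fun e _ => hle e) ⟨(i, true), mem_univ _, hlt⟩
  have h1 := hsup z2 hz2
  have h2 : ∑ _e : Dir d, u z2 = 2 * d * u z2 := by
    rw [← card_dir, sum_mul]
    simp
  linarith

/-- the discrete Laplacian, with the opposite sign -/
def lap (f : V d → ℝ) (x : V d) : ℝ := 2 * d * f x - ∑ e : Dir d, f (x + vec e)

theorem lap_sub (f g : V d → ℝ) (x : V d) : lap (fun z => f z - g z) x = lap f x - lap g x := by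
  unfold lap
  rw [sum_sub_distrib]
  ring

theorem lap_add (f g : V d → ℝ) (x : V d) : lap (fun z => f z + g z) x = lap f x + lap g x := by
  unfold lap
  rw [sum_add_distrib]
  ring

theorem lap_refl (f : V d → ℝ) (i : Fin d) (c : ℤ) (x : V d) :
    lap (fun z => f (refl i c z)) x = lap f (refl i c x) := by
  unfold lap
  rw [sum_refl]

theorem lap_hit (hd : 0 < d) (x : V d) : lap hit x = if x = 0 then flux d else 0 := hit_lap hd x

theorem lap_hit_ne (hd : 0 < d) {x : V d} {i : Fin d} (hx : x i ≠ 0) : lap hit x = 0 := by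
  rw [lap_hit hd, if_neg]
  rintro rfl
  exact hx rfl

theorem lap_hit_nonneg (hd : 0 < d) (x : V d) : 0 ≤ lap hit x := by
  rw [lap_hit hd]
  split_ifs
  · exact flux_nonneg hd
  · exact le_rfl

theorem refl_self (i : Fin d) (c : ℤ) (x : V d) : refl i c x i = c - x i := by
  simp [refl]

theorem refl_of_ne {i j : Fin d} (h : j ≠ i) (c : ℤ) (x : V d) : refl i c x j = x j := by
  simp [refl, h]

theorem refl_comm {i l : Fin d} (h : i ≠ l) (c c' : ℤ) (x : V d) :
    refl i c (refl l c' x) = refl l c' (refl i c x) := by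
  unfold refl
  ext k
  by_cases hk : k = i
  · subst hk; simp [h]
  · by_cases hl : k = l
    · subst hl; simp [hk]
    · simp [hk, hl]

/-- leaving a half-space -/
theorem exit_half {i : Fin d} {c : ℤ} {z : V d} (hz : z i ≤ c) (e : Dir d) :
    (z + vec e) i ≤ c ∨ (z + vec e = refl i (2 * c + 1) z) := by
  obtain ⟨j, b⟩ := e
  by_cases hj : j = i
  · subst hj
    cases b
    · left; simp [vec]; omega
    · rcases hz.lt_or_eq with h | h
      · left; simp [vec]; omega
      · right
        ext k
        by_cases hk : k = j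
        · subst hk; rw [refl_self]; simp [vec, h]; ring
        · rw [refl_of_ne hk]; simp [vec, hk]
  · left
    simpa [vec, Ne.symm hj] using hz

theorem tendsto_hit_refl (hd : 3 ≤ d) (i : Fin d) (c : ℤ) :
    Tendsto (fun z : V d => hit (refl i c z)) cofinite (𝓝 0) :=
  (tendsto_hit hd).comp (refl_injective i c).tendsto_cofinite

theorem hit_refl_le (hd : 3 ≤ d) (i : Fin d) {c : ℤ} (hc : 0 ≤ c) (z : V d) (hz : z i ≤ c) :
    hit (refl i (2 * c + 1) z) ≤ hit z := by
  have hd0 : 0 < d := by omega
  have := min_principle (fun z => hit z - hit (refl i (2 * c + 1) z)) {z | z i ≤ c} i ?_ ?_ ?_ z hz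
  · exact sub_nonneg.1 this
  · have := (tendsto_hit hd).sub (tendsto_hit_refl hd i (2 * c + 1))
    simpa using this
  · intro z hz
    have h1 : lap (fun z => hit z - hit (refl i (2 * c + 1) z)) z =
        lap hit z - lap hit (refl i (2 * c + 1) z) := by
      rw [lap_sub, lap_refl]
    have h2 : lap hit (refl i (2 * c + 1) z) = 0 := by
      refine lap_hit_ne hd0 (i := i) ?_
      rw [refl_self]
      have : z i ≤ c := hz
      omega
    have h3 := lap_hit_nonneg hd0 z
    rw [h2, sub_zero] at h1
    unfold lap at h1 h3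
    linarith
  · intro z hz e
    rcases exit_half (i := i) (c := c) hz e with h | h
    · exact Or.inl h
    · right
      rw [h, refl_refl]
      ring

theorem refl_eq_add {i : Fin d} {z : V d} : refl i (2 * z i + 1) z = z + vec (i, true) := by
  ext k
  by_cases hk : k = i
  · subst hk; rw [refl_self]; simp [vec]; ring
  · rw [refl_of_ne hk]; simp [vec, hk]

/-- `hit` decreases when `|z i|` increases -/
theorem hit_mono (hd : 3 ≤ d) {i : Fin d} {z : V d} (hz : 0 ≤ z i) :
    hit (z + vec (i, true)) ≤ hit z := by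
  have h := hit_refl_le hd i hz z le_rfl
  rwa [refl_eq_add] at h

theorem hit_mixed (hd : 3 ≤ d) {i l : Fin d} (hil : i ≠ l) {z : V d} (hi : 0 ≤ z i)
    (hl : 0 ≤ z l) :
    hit (z + vec (l, true)) - hit (z + vec (l, true) + vec (i, true)) ≤
      hit z - hit (z + vec (i, true)) := by
  have hd0 : 0 < d := by omega
  set c := z i with hc
  set c' := z l with hc'
  set R := refl (d := d) i (2 * c + 1) with hR
  set R' := refl (d := d) l (2 * c' + 1) with hR'
  have hcomm : ∀ z, R (R' z) = R' (R z) := fun z => refl_comm hil _ _ z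
  have hRR : ∀ z, R (R z) = z := fun z => refl_refl _ _ z
  have hRR' : ∀ z, R' (R' z) = z := fun z => refl_refl _ _ z
  have key := min_principle (fun z => (hit z - hit (R z)) - (hit (R' z) - hit (R (R' z))))
    {z | z i ≤ c ∧ z l ≤ c'} i ?_ ?_ ?_ z ⟨le_rfl, le_rfl⟩
  · have e1 : R z = z + vec (i, true) := by rw [hR, hc]; exact refl_eq_add
    have e2 : R' z = z + vec (l, true) := by rw [hR', hc']; exact refl_eq_add
    have e3 : R (R' z) = z + vec (l, true) + vec (i, true) := by
      rw [← e2]
      have h4 : (R' z) i = c := by rw [hR', refl_of_ne hil, hc]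
      rw [hR, ← h4]
      exact refl_eq_add
    have key' : 0 ≤ (hit z - hit (R z)) - (hit (R' z) - hit (R (R' z))) := key
    rw [e3, e1, e2] at key'
    linarith
  · have t1 := tendsto_hit hd
    have t2 := tendsto_hit_refl hd i (2 * c + 1)
    have t3 := tendsto_hit_refl hd l (2 * c' + 1)
    have t4 : Tendsto (fun z : V d => hit (R (R' z))) cofinite (𝓝 0) :=
      t2.comp (refl_injective l (2 * c' + 1)).tendsto_cofinite
    have := (t1.sub t2).sub (t3.sub t4)
    simpa using this
  · rintro z ⟨hz1, hz2⟩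
    have h1 : lap (fun z => (hit z - hit (R z)) - (hit (R' z) - hit (R (R' z)))) z =
        (lap hit z - lap hit (R z)) - (lap hit (R' z) - lap hit (R (R' z))) := by
      rw [lap_sub, lap_sub, lap_sub]
      have a1 : lap (fun z => hit (R z)) z = lap hit (R z) := lap_refl _ _ _ _
      have a2 : lap (fun z => hit (R' z)) z = lap hit (R' z) := lap_refl _ _ _ _
      have a3 : lap (fun z => hit (R (R' z))) z = lap hit (R (R' z)) := by
        exact (lap_refl (fun w => hit (R w)) l (2 * c' + 1) z).trans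
          (lap_refl hit i (2 * c + 1) (R' z))
      rw [a1, a2, a3]
    have h2 : lap hit (R z) = 0 := by
      refine lap_hit_ne hd0 (i := i) ?_
      rw [hR, refl_self]
      omega
    have h3 : lap hit (R' z) = 0 := by
      refine lap_hit_ne hd0 (i := l) ?_
      rw [hR', refl_self]
      omega
    have h4 : lap hit (R (R' z)) = 0 := by
      refine lap_hit_ne hd0 (i := l) ?_
      rw [hcomm, hR', refl_self, hR, refl_of_ne (Ne.symm hil)]
      omega
    have h5 := lap_hit_nonneg hd0 z
    rw [h2, h3, h4] at h1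
    simp only [sub_zero] at h1
    unfold lap at h1 h5
    linarith
  · rintro z ⟨hz1, hz2⟩ e
    rcases exit_half (i := i) (c := c) hz1 e with h | h
    · rcases exit_half (i := l) (c := c') hz2 e with h' | h'
      · exact Or.inl ⟨h, h'⟩
      · right
        rw [h']
        change (hit (R' z) - hit (R (R' z))) - (hit (R' (R' z)) - hit (R (R' (R' z)))) = _
        rw [hRR']
        ring
    · right
      rw [h]
      change (hit (R z) - hit (R (R z))) - (hit (R' (R z)) - hit (R (R' (R z)))) = _
      rw [hRR, hcomm, hRR, ← hcomm]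
      ring

end

end Pool.Agent.H282R3.RW
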