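import Pool.Agent.H282R3.RW.Defs

/-!
# Elementary facts on rotor walks
-/

namespace Pool.Agent.H282R3.RW

open Filter Topology Finset

noncomputable section

variable {d : ℕ} {m : V d → Equiv.Perm (Dir d)}

theorem exists_pow (hm : IsMechanism m) (x : V d) (e e' : Dir d) : ∃ n : ℕ, ((m x) ^ n) e = e' := by
  have h := hm x
  have hne : ∀ e, m x e ≠ e := fun e => by
    have : e ∈ (m x).support := by rw [h.2]; exact mem_univ e
    exact Equiv.Perm.mem_support.1 this
  exact h.1.exists_pow_eq (hne e) (hne e')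

theorem step_fst (m : V d → Equiv.Perm (Dir d)) (s : V d × (V d → Dir d)) :
    (step m s).1 = s.1 + vec (s.2 s.1) := rfl

theorem step_snd (m : V d → Equiv.Perm (Dir d)) (s : V d × (V d → Dir d)) :
    (step m s).2 = Function.update s.2 s.1 (m s.1 (s.2 s.1)) := rfl

theorem walk_zero (m : V d → Equiv.Perm (Dir d)) (ρ : V d → Dir d) : walk m ρ 0 = (0, ρ) := rfl

theorem walk_succ (m : V d → Equiv.Perm (Dir d)) (ρ : V d → Dir d) (k : ℕ) :
    walk m ρ (k + 1) = step m (walk m ρ k) := Function.iterate_succ_apply' _ _ _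

theorem walk_add (m : V d → Equiv.Perm (Dir d)) (ρ : V d → Dir d) (k j : ℕ) :
    walk m ρ (k + j) = (step m)^[j] (walk m ρ k) := by
  unfold walk
  rw [add_comm, Function.iterate_add_apply]

theorem rotor_const (ρ : V d → Dir d) (y : V d) (a n : ℕ)
    (h : ∀ j, a ≤ j → j < a + n → (walk m ρ j).1 ≠ y) :
    (walk m ρ (a + n)).2 y = (walk m ρ a).2 y := by
  induction n with
  | zero => rfl
  | succ n ih =>
    have h1 := ih fun j h1 h2 => h j h1 (by omega)
    rw [← h1, ← add_assoc, walk_succ]
    unfold step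
    exact Function.update_of_ne (h (a + n) (by omega) (by omega)).symm _ _

theorem frequently_dir (hm : IsMechanism m) (ρ : V d → Dir d) {y : V d}
    (hy : ∃ᶠ k in atTop, (walk m ρ k).1 = y) (e : Dir d) :
    ∃ᶠ k in atTop, (walk m ρ k).1 = y ∧ (walk m ρ k).2 y = e := by
  have h1 : ∃ e, ∃ᶠ k in atTop, (walk m ρ k).1 = y ∧ (walk m ρ k).2 y = e := by
    by_contra hne
    rw [not_exists] at hne
    have h2 : ∀ᶠ k in atTop, ∀ e, ¬ ((walk m ρ k).1 = y ∧ (walk m ρ k).2 y = e) :=
      eventually_all.2 fun e => not_frequently.1 (hne e)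
    obtain ⟨k, hk1, hk2⟩ := (hy.and_eventually h2).exists
    exact hk2 _ ⟨hk1, rfl⟩
  have h2 : ∀ e, (∃ᶠ k in atTop, (walk m ρ k).1 = y ∧ (walk m ρ k).2 y = e) →
      ∃ᶠ k in atTop, (walk m ρ k).1 = y ∧ (walk m ρ k).2 y = m y e := by
    intro e he
    rw [frequently_atTop] at he ⊢
    intro K
    obtain ⟨k, hkK, hk1, hk2⟩ := he K
    rw [frequently_atTop] at hy
    classical
    have hex : ∃ n, (walk m ρ (k + 1 + n)).1 = y := by
      obtain ⟨k', hk', h⟩ := hy (k + 1)
      exact ⟨k' - (k + 1), by rw [Nat.add_sub_cancel' hk']; exact h⟩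
    refine ⟨k + 1 + Nat.find hex, by omega, Nat.find_spec hex, ?_⟩
    rw [rotor_const ρ y (k + 1) (Nat.find hex)]
    · rw [walk_succ]
      unfold step
      rw [hk1]
      simp [hk2]
    · intro j hj1 hj2 hj3
      refine Nat.find_min hex (m := j - (k + 1)) (by omega) ?_
      rw [Nat.add_sub_cancel' hj1]
      exact hj3
  obtain ⟨e1, he1⟩ := h1
  obtain ⟨n, hn⟩ := exists_pow hm y e1 e
  have h3 : ∀ n : ℕ, ∃ᶠ k in atTop, (walk m ρ k).1 = y ∧ (walk m ρ k).2 y = ((m y) ^ n) e1 := by
    intro n
    induction n with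
    | zero => simpa using he1
    | succ n ih =>
      have := h2 _ ih
      rw [pow_succ']
      exact this
  have := h3 n
  rwa [hn] at this

theorem frequently_step (hm : IsMechanism m) (ρ : V d → Dir d) {y : V d}
    (hy : ∃ᶠ k in atTop, (walk m ρ k).1 = y) (e : Dir d) :
    ∃ᶠ k in atTop, (walk m ρ k).1 = y + vec e := by
  have h := frequently_dir hm ρ hy e
  rw [frequently_atTop] at h ⊢
  intro K
  obtain ⟨k, hk, h1, h2⟩ := h K
  refine ⟨k + 1, by omega, ?_⟩
  rw [walk_succ]
  unfold step
  simp only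
  rw [h1, h2]

theorem frequently_add (hm : IsMechanism m) (ρ : V d → Dir d) (z : V d) :
    ∀ y : V d, (∃ᶠ k in atTop, (walk m ρ k).1 = y) → ∃ᶠ k in atTop, (walk m ρ k).1 = y + z := by
  let G : AddSubmonoid (V d) :=
    { carrier := {z | ∀ y : V d, (∃ᶠ k in atTop, (walk m ρ k).1 = y) →
        ∃ᶠ k in atTop, (walk m ρ k).1 = y + z}
      zero_mem' := fun y hy => by simpa using hy
      add_mem' := by
        intro a b ha hb y hy
        have := hb _ (ha y hy)
        rwa [add_assoc] at this }
  have hvec : ∀ e : Dir d, vec e ∈ G := fun e y hy => frequently_step hm ρ hy e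
  have hsingle : ∀ (i : Fin d) (n : ℤ), (Pi.single i n : V d) ∈ G := by
    intro i n
    obtain ⟨k, rfl | rfl⟩ := n.eq_nat_or_neg
    · have := G.nsmul_mem (hvec (i, true)) k
      have e : k • vec (i, true) = (Pi.single i (k : ℤ) : V d) := by
        ext j
        by_cases hj : j = i
        · subst hj; simp [vec]
        · simp [vec, hj]
      rwa [e] at this
    · have := G.nsmul_mem (hvec (i, false)) k
      have e : k • vec (i, false) = (Pi.single i (-(k : ℤ)) : V d) := by
        ext j
        by_cases hj : j = i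
        · subst hj; simp [vec]
        · simp [vec, hj]
      rwa [e] at this
  have hz : z ∈ G := by
    rw [← Finset.univ_sum_single z]
    exact G.sum_mem fun i _ => hsingle i _
  exact hz

/-- If the particle never returns to the origin, it visits each vertex finitely often. -/
theorem eventually_ne (hm : IsMechanism m) {ρ : V d → Dir d} (h : Escapes m ρ) (y : V d) :
    ∀ᶠ k in atTop, (walk m ρ k).1 ≠ y := by
  by_contra hne
  have h1 : ∃ᶠ k in atTop, (walk m ρ k).1 = y := by
    intro h2
    exact hne h2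
  have h2 := frequently_add hm ρ (-y) y h1
  rw [add_neg_cancel, frequently_atTop] at h2
  obtain ⟨k, hk, hk0⟩ := h2 1
  exact h ⟨k, hk, hk0⟩

theorem tendsto_walk (hm : IsMechanism m) {ρ : V d → Dir d} (h : Escapes m ρ) :
    Tendsto (fun k => (walk m ρ k).1) atTop cofinite := by
  intro s hs
  rw [mem_cofinite] at hs
  change ∀ᶠ k in atTop, (walk m ρ k).1 ∈ s
  have h1 : ∀ᶠ k in atTop, ∀ y ∈ sᶜ, (walk m ρ k).1 ≠ y :=
    (eventually_all_finite hs).2 fun y _ => eventually_ne hm h y
  filter_upwards [h1] with k hk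
  by_contra hne
  exact hk _ hne rfl

/-- If the particle never returns, each rotor is eventually constant. -/
theorem after_spec [NeZero d] (hm : IsMechanism m) {ρ : V d → Dir d} (h : Escapes m ρ) (y : V d) :
    ∀ᶠ k in atTop, (walk m ρ k).2 y = after m ρ y := by
  have hR : ¬ Returns m ρ := h
  have h1 : ∃ e : Dir d, ∀ᶠ k in atTop, (walk m ρ k).2 y = e := by
    obtain ⟨K, hK⟩ := eventually_atTop.1 (eventually_ne hm h y)
    refine ⟨(walk m ρ K).2 y, ?_⟩
    filter_upwards [eventually_ge_atTop K] with k hk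
    obtain ⟨n, rfl⟩ := Nat.exists_eq_add_of_le hk
    exact rotor_const ρ y K n fun j hj _ => hK j hj
  have h2 := Classical.epsilon_spec h1
  unfold after
  rw [dif_neg hR]
  exact h2

open Classical in
theorem after_returns [NeZero d] {ρ : V d → Dir d} (h : Returns m ρ) :
    after m ρ = (walk m ρ (Nat.find h)).2 := by
  unfold after
  rw [dif_pos h]

/-- going up for ever -/
theorem go_up (v : Fin d) (s : V d × (V d → Dir d))
    (h : ∀ j : ℕ, s.2 (s.1 + Pi.single v (j : ℤ)) = (v, true)) (j : ℕ) :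
    ((step m)^[j] s).1 = s.1 + Pi.single v (j : ℤ) ∧
    ∀ y, (∀ i : ℕ, i < j → y ≠ s.1 + Pi.single v (i : ℤ)) → ((step m)^[j] s).2 y = s.2 y := by
  induction j with
  | zero => exact ⟨by simp, fun y _ => rfl⟩
  | succ j ih =>
    obtain ⟨ih1, ih2⟩ := ih
    rw [Function.iterate_succ_apply']
    have hrot : ((step m)^[j] s).2 ((step m)^[j] s).1 = (v, true) := by
      rw [ih1, ih2 _ ?_, h]
      intro i hi heq
      have := congrFun (add_left_cancel heq) v
      simp at this
      omega
    refine ⟨?_, ?_⟩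
    · rw [step_fst, hrot, ih1, add_assoc]
      congr 1
      ext k
      by_cases hk : k = v
      · subst hk; simp [vec]
      · simp [vec, hk]
    · intro y hy
      rw [step_snd, Function.update_of_ne, ih2 y fun i hi => hy i (by omega)]
      rw [ih1]
      exact hy j (by omega)

end

end Pool.Agent.H282R3.RW
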