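import Pool.Agent.H282R3.RW.Hit

/-!
# The escape probability of simple random walk
-/

namespace Pool.Agent.H282R3.RW

open MeasureTheory Filter Topology Finset
open scoped ENNReal

noncomputable section

variable {d : ℕ}

/-- put a direction in front of a sequence -/
def consN (p : Dir d × (ℕ → Dir d)) : ℕ → Dir d
  | 0 => p.1
  | n + 1 => p.2 n

theorem measurable_consN : Measurable (consN : Dir d × (ℕ → Dir d) → ℕ → Dir d) := by
  rw [measurable_pi_iff]
  intro n
  cases n with
  | zero => exact measurable_fst
  | succ n => exact (measurable_pi_apply n).comp measurable_snd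

variable [NeZero d]

/-- the uniform law on the directions -/
def unif (d : ℕ) [NeZero d] : Measure (Dir d) := (PMF.uniformOfFintype (Dir d)).toMeasure

instance : IsProbabilityMeasure (unif d) :=
  inferInstanceAs (IsProbabilityMeasure (PMF.uniformOfFintype (Dir d)).toMeasure)

instance : IsProbabilityMeasure (steps d) :=
  inferInstanceAs (IsProbabilityMeasure (Measure.infinitePi (fun _ : ℕ => unif d)))

theorem map_consN : Measure.map consN ((unif d).prod (steps d)) = steps d := by
  classical
  refine Measure.eq_infinitePi _ fun s t ht => ?_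
  obtain ⟨N, hN⟩ : ∃ N, s ⊆ range (N + 1) := by
    refine ⟨s.sup id, fun i hi => ?_⟩
    rw [mem_range]
    have : id i ≤ s.sup id := le_sup hi
    simp only [id] at this
    omega
  set T : ℕ → Set (Dir d) := fun i => if i ∈ s then t i else Set.univ with hT
  have hTm : ∀ i, MeasurableSet (T i) := fun i => by
    simp only [hT]; split_ifs
    · exact ht i
    · exact MeasurableSet.univ
  have h1 : Set.pi (s : Set ℕ) t = Set.pi (range (N + 1) : Set ℕ) T := by
    ext ω
    simp only [Set.mem_pi, mem_coe, hT]
    constructor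
    · intro h i _
      split_ifs with hi
      · exact h i hi
      · trivial
    · intro h i hi
      have := h i (hN hi)
      rwa [if_pos hi] at this
  have h2 : ∏ i ∈ s, unif d (t i) = ∏ i ∈ range (N + 1), unif d (T i) := by
    rw [← prod_subset hN (f := fun i => unif d (T i))]
    · refine prod_congr rfl fun i hi => ?_
      simp only [hT, if_pos hi]
    · intro i _ hi
      simp only [hT, if_neg hi, measure_univ]
  have h3 : consN ⁻¹' (Set.pi (range (N + 1) : Set ℕ) T) =
      T 0 ×ˢ (Set.pi (range N : Set ℕ) fun k => T (k + 1)) := by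
    ext ⟨a, ω⟩
    simp only [Set.mem_preimage, Set.mem_pi, mem_coe, mem_range, Set.mem_prod]
    constructor
    · intro h
      exact ⟨h 0 (by omega), fun k hk => h (k + 1) (by omega)⟩
    · rintro ⟨h0, h⟩ i hi
      cases i with
      | zero => exact h0
      | succ k => exact h k (by omega)
  change (Measure.map consN ((unif d).prod (steps d))) (Set.pi (s : Set ℕ) t) =
    ∏ i ∈ s, unif d (t i)
  rw [h1, h2, Measure.map_apply measurable_consN
    (MeasurableSet.pi (Finset.countable_toSet _) fun i _ => hTm i), h3, Measure.prod_prod,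
    prod_range_succ']
  have h4 : steps d (Set.pi (range N : Set ℕ) fun k => T (k + 1)) =
      ∏ i ∈ range N, unif d (T (i + 1)) :=
    Measure.infinitePi_pi (μ := fun _ : ℕ => unif d) fun i _ => hTm (i + 1)
  rw [h4, mul_comm]

theorem unif_singleton (a : Dir d) : unif d {a} = ((2 * d : ℕ) : ℝ≥0∞)⁻¹ := by
  have : unif d {a} = PMF.uniformOfFintype (Dir d) a :=
    PMF.toMeasure_apply_singleton _ _ (measurableSet_singleton a)
  rw [this, PMF.uniformOfFintype_apply]
  congr 2
  simp [mul_comm]

omit [NeZero d] in
theorem measurable_pos (k : ℕ) : Measurable fun ω : ℕ → Dir d => pos ω k := by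
  unfold pos
  refine Finset.measurable_fun_sum _ fun j _ => ?_
  exact (Measurable.of_discrete (f := (vec : Dir d → V d))).comp (measurable_pi_apply j)

theorem measurableSet_pos (x : V d) (k : ℕ) :
    MeasurableSet {ω : ℕ → Dir d | x + pos ω k = 0} :=
  measurableSet_eq_fun (measurable_const.add (measurable_pos k)) measurable_const

omit [NeZero d] in
theorem pos_consN (a : Dir d) (ω : ℕ → Dir d) (k : ℕ) :
    pos (consN (a, ω)) (k + 1) = vec a + pos ω k := by
  unfold pos
  rw [sum_range_succ', add_comm]
  rfl

theorem steps_apply {A : Set (ℕ → Dir d)} (hA : MeasurableSet A) :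
    (steps d).real A = (∑ a : Dir d, (steps d).real {ω | consN (a, ω) ∈ A}) / (2 * d) := by
  have hd : (0 : ℝ) < 2 * d := by
    have : 0 < d := Nat.pos_of_ne_zero (NeZero.ne d)
    positivity
  have h1 : steps d A = ∑ a : Dir d, steps d {ω | consN (a, ω) ∈ A} * ((2 * d : ℕ) : ℝ≥0∞)⁻¹ := by
    conv_lhs => rw [← map_consN]
    rw [Measure.map_apply measurable_consN hA, Measure.prod_apply (measurable_consN hA),
      lintegral_fintype]
    refine sum_congr rfl fun a _ => ?_
    rw [unif_singleton]
    rfl
  unfold Measure.real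
  rw [h1, ENNReal.toReal_sum (fun a _ => ENNReal.mul_ne_top (measure_ne_top _ _) (by
    rw [ENNReal.inv_ne_top]
    have : 0 < d := Nat.pos_of_ne_zero (NeZero.ne d)
    exact_mod_cast (by omega : 2 * d ≠ 0))), sum_div]
  refine sum_congr rfl fun a _ => ?_
  rw [ENNReal.toReal_mul, ENNReal.toReal_inv, div_eq_mul_inv]
  congr 2
  simp

/-- the event that the walk from `x` hits the origin within `N` steps -/
def hitSet (N : ℕ) (x : V d) : Set (ℕ → Dir d) := {ω | ∃ k, k ≤ N ∧ x + pos ω k = 0}

theorem measurableSet_hitSet (N : ℕ) (x : V d) : MeasurableSet (hitSet N x) := by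
  have : hitSet N x = ⋃ k ∈ Set.Iic N, {ω : ℕ → Dir d | x + pos ω k = 0} := by
    ext ω
    simp [hitSet]
  rw [this]
  exact MeasurableSet.biUnion (Set.to_countable _) fun k _ => measurableSet_pos x k

theorem hitSet_real (N : ℕ) : ∀ x : V d, (steps d).real (hitSet N x) = hitN N x := by
  induction N with
  | zero =>
    intro x
    by_cases hx : x = 0
    · subst hx
      have : hitSet 0 (0 : V d) = Set.univ := by
        ext ω; simp [hitSet, pos]
      rw [this, hitN_zero]
      simp
    · have : hitSet 0 x = (∅ : Set (ℕ → Dir d)) := by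
        ext ω; simp [hitSet, pos, hx]
      rw [this]
      simp [hitN, hx]
  | succ N ih =>
    intro x
    by_cases hx : x = 0
    · subst hx
      have : hitSet (N + 1) (0 : V d) = Set.univ := by
        ext ω
        simp only [hitSet, Set.mem_ofPred_eq, Set.mem_univ, iff_true]
        exact ⟨0, by omega, by simp [pos]⟩
      rw [this, hitN_zero]
      simp
    · rw [steps_apply (measurableSet_hitSet _ _), hitN_succ hx]
      congr 1
      refine sum_congr rfl fun a _ => ?_
      rw [← ih]
      congr 1
      ext ω
      simp only [hitSet, Set.mem_ofPred_eq]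
      constructor
      · rintro ⟨k, hk, h⟩
        cases k with
        | zero => exact absurd (by simpa [pos] using h) hx
        | succ k =>
          refine ⟨k, by omega, ?_⟩
          rw [pos_consN] at h
          rw [add_assoc]
          exact h
      · rintro ⟨k, hk, h⟩
        refine ⟨k + 1, by omega, ?_⟩
        rw [pos_consN, ← add_assoc]
        exact h

theorem hit_real (x : V d) :
    (steps d).real {ω | ∃ k, x + pos ω k = 0} = hit x := by
  have hd : 0 < d := Nat.pos_of_ne_zero (NeZero.ne d)
  have hmono : Monotone fun N => hitSet N x := by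
    intro N M hNM ω
    rintro ⟨k, hk, h⟩
    exact ⟨k, hk.trans hNM, h⟩
  have hU : (⋃ N, hitSet N x) = {ω | ∃ k, x + pos ω k = 0} := by
    ext ω
    simp only [Set.mem_iUnion, hitSet, Set.mem_ofPred_eq]
    constructor
    · rintro ⟨N, k, _, h⟩; exact ⟨k, h⟩
    · rintro ⟨k, h⟩; exact ⟨k, k, le_rfl, h⟩
  have h1 : Tendsto (fun N => (steps d).real (hitSet N x)) atTop
      (𝓝 ((steps d).real (⋃ N, hitSet N x))) := by
    have := tendsto_measure_iUnion_atTop (μ := steps d) hmono
    exact (ENNReal.tendsto_toReal (measure_ne_top _ _)).comp this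
  rw [hU] at h1
  simp_rw [hitSet_real] at h1
  exact tendsto_nhds_unique h1 (tendsto_hitN hd x)

theorem escapeProb_eq : 2 * d * escapeProb d = flux d := by
  have hd : (0 : ℝ) < 2 * d := by
    have : 0 < d := Nat.pos_of_ne_zero (NeZero.ne d)
    positivity
  set A : Set (ℕ → Dir d) := {ω | ∃ k, pos ω (k + 1) = 0} with hA
  have hAm : MeasurableSet A := by
    have : A = ⋃ k, {ω : ℕ → Dir d | (0 : V d) + pos ω (k + 1) = 0} := by
      ext ω; simp [hA]
    rw [this]
    exact MeasurableSet.iUnion fun k => measurableSet_pos 0 (k + 1)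
  have hcompl : {ω : ℕ → Dir d | ∀ k, 1 ≤ k → pos ω k ≠ 0} = Aᶜ := by
    ext ω
    simp only [hA, Set.mem_ofPred_eq, Set.mem_compl_iff, not_exists]
    constructor
    · intro h k; exact h (k + 1) (by omega)
    · intro h k hk
      obtain ⟨j, rfl⟩ : ∃ j, k = j + 1 := ⟨k - 1, by omega⟩
      exact h j
  unfold escapeProb
  rw [hcompl, probReal_compl_eq_one_sub hAm, steps_apply hAm]
  have : ∀ a : Dir d, (steps d).real {ω | consN (a, ω) ∈ A} = hit (vec a) := by
    intro a
    rw [← hit_real]
    congr 1
    ext ω
    simp only [hA, Set.mem_ofPred_eq]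
    simp_rw [pos_consN]
  simp_rw [this]
  unfold flux
  rw [mul_sub, mul_one, mul_div_cancel₀ _ hd.ne']

end

end Pool.Agent.H282R3.RW
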