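import Pool.Agent.H282R3.RW.Decay
import Pool.Agent.H282R3.RW.Rotor
import Pool.Agent.H282R3.RW.Srw

/-!
# Rotor weights
-/

namespace Pool.Agent.H282R3.RW

open Filter Topology Finset

noncomputable section

theorem exists_weight {D : Type*} [Fintype D] [DecidableEq D] (σ : Equiv.Perm D) (e0 : D)
    (hσ : ∀ e, ∃ n : ℕ, (σ ^ n) e0 = e) (f : D → ℝ) (hf : ∑ e, f e = 0) :
    ∃ w : D → ℝ, w e0 = 0 ∧ (∀ e, w (σ e) - w e = f e) ∧ ∀ e, |w e| ≤ ∑ e', |f e'| := by
  set k : D → ℕ := fun e => Nat.find (hσ e) with hk
  have hkspec : ∀ e, (σ ^ (k e)) e0 = e := fun e => Nat.find_spec (hσ e)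
  have hkmin : ∀ e n, n < k e → (σ ^ n) e0 ≠ e := fun e n hn => Nat.find_min (hσ e) hn
  have hinj : ∀ e, Set.InjOn (fun j : ℕ => (σ ^ j) e0) (range (k e + 1) : Set ℕ) := by
    intro e
    have key : ∀ i j : ℕ, i < j → j ≤ k e → (σ ^ i) e0 ≠ (σ ^ j) e0 := by
      intro i j hij hj h
      refine hkmin e (k e - j + i) (by omega) ?_
      rw [pow_add, Equiv.Perm.mul_apply, h, ← Equiv.Perm.mul_apply, ← pow_add,
        Nat.sub_add_cancel hj]
      exact hkspec e
    intro i hi j hj hij
    simp only [coe_range, Set.mem_Iio] at hi hj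
    rcases lt_trichotomy i j with h | h | h
    · exact absurd hij (key i j h (by omega))
    · exact h
    · exact absurd hij.symm (key j i h (by omega))
  set w : D → ℝ := fun e => ∑ j ∈ range (k e), f ((σ ^ j) e0) with hw
  refine ⟨w, ?_, ?_, ?_⟩
  · have : k e0 = 0 := by
      by_contra hne
      exact hkmin e0 0 (Nat.pos_of_ne_zero hne) rfl
    simp [hw, this]
  · intro e
    have h1 : (σ ^ (k e + 1)) e0 = σ e := by
      rw [pow_succ', Equiv.Perm.mul_apply, hkspec]
    have hle : k (σ e) ≤ k e + 1 := Nat.find_min' (hσ (σ e)) h1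
    rcases hle.lt_or_eq with hlt | heq
    · -- then `σ e = e0`
      have h0 : k (σ e) = 0 := by
        by_contra hne
        obtain ⟨n, hn⟩ := Nat.exists_eq_succ_of_ne_zero hne
        have h2 : (σ ^ (n + 1)) e0 = σ e := by
          have := hkspec (σ e)
          rwa [hn] at this
        rw [pow_succ', Equiv.Perm.mul_apply] at h2
        have h3 := σ.injective h2
        exact hkmin e n (by omega) h3
      have hse : σ e = e0 := by
        have := hkspec (σ e)
        rw [h0] at this
        simpa using this.symm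
      have himg : (range (k e + 1)).image (fun j : ℕ => (σ ^ j) e0) = univ := by
        rw [eq_univ_iff_forall]
        have hcl : ∀ e', e' ∈ (range (k e + 1)).image (fun j : ℕ => (σ ^ j) e0) →
            σ e' ∈ (range (k e + 1)).image (fun j : ℕ => (σ ^ j) e0) := by
          intro e' he'
          rw [mem_image] at he' ⊢
          obtain ⟨j, hj, rfl⟩ := he'
          rw [mem_range] at hj
          by_cases hjk : j = k e
          · refine ⟨0, by rw [mem_range]; omega, ?_⟩
            rw [hjk, hkspec, hse]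
            rfl
          · refine ⟨j + 1, by rw [mem_range]; omega, ?_⟩
            rw [pow_succ', Equiv.Perm.mul_apply]
        have hall : ∀ n : ℕ, (σ ^ n) e0 ∈ (range (k e + 1)).image (fun j : ℕ => (σ ^ j) e0) := by
          intro n
          induction n with
          | zero => rw [mem_image]; exact ⟨0, by simp, rfl⟩
          | succ n ih =>
            rw [pow_succ', Equiv.Perm.mul_apply]
            exact hcl _ ih
        intro e'
        obtain ⟨n, rfl⟩ := hσ e'
        exact hall n
      have hsum : ∑ j ∈ range (k e + 1), f ((σ ^ j) e0) = 0 := by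
        rw [← sum_image (f := f) (hinj e), himg, hf]
      rw [sum_range_succ, hkspec] at hsum
      have hw0 : w (σ e) = 0 := by simp [hw, h0]
      rw [hw0]
      simp only [hw]
      linarith
    · simp only [hw, heq, sum_range_succ, hkspec]
      ring
  · intro e
    have hinj' : Set.InjOn (fun j : ℕ => (σ ^ j) e0) (range (k e) : Set ℕ) :=
      (hinj e).mono (by
        intro i hi
        simp only [coe_range, Set.mem_Iio] at hi ⊢
        omega)
    calc |w e| ≤ ∑ j ∈ range (k e), |f ((σ ^ j) e0)| := abs_sum_le_sum_abs _ _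
      _ = ∑ e' ∈ (range (k e)).image (fun j : ℕ => (σ ^ j) e0), |f e'| := by
          rw [sum_image hinj']
      _ ≤ ∑ e', |f e'| := sum_le_sum_of_subset_of_nonneg (subset_univ _) fun _ _ _ => abs_nonneg _

variable {d : ℕ} {m : V d → Equiv.Perm (Dir d)}

/-- mean of `hit` over the neighbours -/
def avg (x : V d) : ℝ := (∑ e : Dir d, hit (x + vec e)) / (2 * d)

theorem avg_eq [NeZero d] (x : V d) :
    avg x = hit x - if x = 0 then escapeProb d else 0 := by
  have hd0 : 0 < d := Nat.pos_of_ne_zero (NeZero.ne d)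
  have hd : (0 : ℝ) < 2 * d := by positivity
  have h1 := hit_lap hd0 x
  unfold avg
  rw [div_eq_iff hd.ne']
  split_ifs at h1 ⊢ with hx
  · rw [← escapeProb_eq] at h1
    linarith
  · linarith

theorem abs_avg_sub_le (hd0 : 0 < d) (x : V d) : |avg x - hit x| ≤ inc x / (2 * d) := by
  have hd : (0 : ℝ) < 2 * d := by positivity
  have h1 : avg x - hit x = (∑ e : Dir d, (hit (x + vec e) - hit x)) / (2 * d) := by
    unfold avg
    rw [sum_sub_distrib, sub_div]
    congr 1
    have : ∑ _e : Dir d, hit x = 2 * d * hit x := by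
      rw [← card_dir, sum_mul]; simp
    rw [this]
    field_simp
  rw [h1, abs_div, abs_of_pos hd]
  exact div_le_div_of_nonneg_right (abs_sum_le_sum_abs _ _) hd.le

theorem sum_abs_le (hd0 : 0 < d) (x : V d) :
    ∑ e : Dir d, |avg x - hit (x + vec e)| ≤ 2 * inc x := by
  have hd : (0 : ℝ) < 2 * d := by positivity
  calc ∑ e : Dir d, |avg x - hit (x + vec e)|
      ≤ ∑ e : Dir d, (inc x / (2 * d) + |hit (x + vec e) - hit x|) := by
        refine sum_le_sum fun e _ => ?_
        have h1 : avg x - hit (x + vec e) = (avg x - hit x) - (hit (x + vec e) - hit x) := by ring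
        rw [h1]
        exact (abs_sub _ _).trans (add_le_add (abs_avg_sub_le hd0 x) le_rfl)
    _ = (∑ _e : Dir d, inc x / (2 * d)) + inc x := by rw [sum_add_distrib]; rfl
    _ = 2 * inc x := by
        have : ∑ _e : Dir d, inc x / (2 * (d : ℝ)) = (∑ _e : Dir d, (1 : ℝ)) * (inc x / (2 * d)) := by
          rw [sum_mul]; simp
        rw [this, card_dir]
        field_simp
        ring

theorem exists_weights (hm : IsMechanism m) (hd0 : 0 < d) (v : Fin d) :
    ∃ w : V d → Dir d → ℝ, (∀ x, w x (v, true) = 0) ∧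
      (∀ x e, w x (m x e) - w x e = avg x - hit (x + vec e)) ∧
      ∀ x e, |w x e| ≤ 2 * inc x := by
  have hd : (0 : ℝ) < 2 * d := by positivity
  have h : ∀ x : V d, ∃ w : Dir d → ℝ, w (v, true) = 0 ∧
      (∀ e, w (m x e) - w e = avg x - hit (x + vec e)) ∧
      ∀ e, |w e| ≤ ∑ e', |avg x - hit (x + vec e')| := by
    intro x
    refine exists_weight (m x) (v, true) (fun e => exists_pow hm x _ e)
      (fun e => avg x - hit (x + vec e)) ?_
    rw [sum_sub_distrib]
    have : ∑ _e : Dir d, avg x = 2 * d * avg x := by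
      rw [← card_dir, sum_mul]; simp
    rw [this]
    unfold avg
    field_simp
    ring
  choose w h1 h2 h3 using h
  exact ⟨w, h1, h2, fun x e => (h3 x e).trans (sum_abs_le hd0 x)⟩

end

end Pool.Agent.H282R3.RW
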